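import Pool.Agent.H77.SP.Weld
import Pool.Agent.H77.SP.StelDef

/-!
# The cross polytope
-/

set_option autoImplicit false

noncomputable section

namespace Pool.Agent.H77.SP

open Module Pool.Agent.W907.SG Pool.Agent.N496.LT.E1P
open Pool.Agent.W907.SM (lk)
open Pool.Agent.TH652.Above (HSph)
open Pool.Agent.N496.LT.Lt (Sph Rea)

section empty

variable {V : Type} [Fintype V] [LinearOrder V]

/-- the empty complex -/
theorem bb_empty (G : SimpleGraph V) (i : ℕ) : bb G (∅ : Set V) i = if i = 0 then 1 else 0 := by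
  classical
  unfold bb beta
  have hK : ∀ i, i ≠ 0 → KK G (fun _ => (- LinearMap.id : ℝ →ₗ[ℝ] ℝ)) (∅ : Set V) ∅ i = ⊥ := by
    intro i hi
    rw [eq_bot_iff]
    intro c hc
    rw [Submodule.mem_bot]
    funext T
    refine (mem_KK.mp hc).1 T ?_
    rintro ⟨_, h2, h3⟩
    have : T = ∅ := by
      rw [← Finset.coe_eq_empty]
      exact Set.subset_empty_iff.mp h2
    rw [this, Finset.card_empty] at h3
    exact hi h3.symm
  split_ifs with hi
  · subst hi
    have hB : BB G (fun _ => (- LinearMap.id : ℝ →ₗ[ℝ] ℝ)) (∅ : Set V) ∅ 0 = ⊥ := by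
      unfold BB
      rw [hK 1 one_ne_zero, Submodule.map_bot]
    have hZ : ZZ G (fun _ => (- LinearMap.id : ℝ →ₗ[ℝ] ℝ)) (∅ : Set V) ∅ 0 =
        Submodule.span ℝ {fun T : Finset V => if T = ∅ then (1 : ℝ) else 0} := by
      refine le_antisymm ?_ ?_
      · rintro c ⟨hc, _⟩
        rw [Submodule.mem_span_singleton]
        refine ⟨c ∅, ?_⟩
        funext T
        show c ∅ * (if T = ∅ then (1 : ℝ) else 0) = c T
        split_ifs with h
        · rw [h, mul_one]
        · rw [mul_zero]
          symm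
          refine (mem_KK.mp hc).1 T ?_
          rintro ⟨_, h2, h3⟩
          exact h (Finset.card_eq_zero.1 h3)
      · rw [Submodule.span_singleton_le_iff_mem]
        refine ⟨mem_KK.2 ⟨fun T hT => ?_, fun T t _ => rfl⟩, ?_⟩
        · show (if T = ∅ then (1 : ℝ) else 0) = 0
          rw [if_neg]
          rintro rfl
          exact hT ⟨by simp, by simp, rfl⟩
        · rw [SetLike.mem_coe, LinearMap.mem_ker]
          funext T
          rw [bd_apply]
          refine Finset.sum_eq_zero fun v _ => ?_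
          rw [if_neg (Finset.insert_ne_empty v T), smul_zero]
    rw [hZ, hB, finrank_bot, finrank_span_singleton]
    intro h
    have := congrFun h ∅
    simp at this
  · have hZ : ZZ G (fun _ => (- LinearMap.id : ℝ →ₗ[ℝ] ℝ)) (∅ : Set V) ∅ i = ⊥ := by
      unfold ZZ
      rw [hK i hi, bot_inf_eq]
    rw [hZ, finrank_bot, Nat.zero_sub]

end empty

/-- the pair of a vertex -/
def pr {m : ℕ} (v : Fin (2 * m)) : Fin m := ⟨v.1 / 2, by omega⟩

theorem cp_adj {m : ℕ} (a b : Fin (2 * m)) : (cp m).Adj a b ↔ pr a ≠ pr b := by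
  unfold pr
  rw [Ne, Fin.mk.injEq]
  rfl

def v0 {m : ℕ} (p : Fin m) : Fin (2 * m) := ⟨2 * p.1, by omega⟩
def v1 {m : ℕ} (p : Fin m) : Fin (2 * m) := ⟨2 * p.1 + 1, by omega⟩

theorem pr_v0 {m : ℕ} (p : Fin m) : pr (v0 p) = p := by
  unfold pr v0
  ext
  simp

theorem pr_v1 {m : ℕ} (p : Fin m) : pr (v1 p) = p := by
  unfold pr v1
  ext
  show (2 * p.1 + 1) / 2 = p.1
  omega

theorem v_cases {m : ℕ} (v : Fin (2 * m)) : v = v0 (pr v) ∨ v = v1 (pr v) := by
  unfold pr v0 v1
  rcases Nat.mod_two_eq_zero_or_one v.1 with h | h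
  · left
    ext
    show v.1 = 2 * (v.1 / 2)
    omega
  · right
    ext
    show v.1 = 2 * (v.1 / 2) + 1
    omega

theorem v0_ne_v1 {m : ℕ} (p : Fin m) : v0 p ≠ v1 p := by
  unfold v0 v1
  intro h
  have := congrArg Fin.val h
  simp at this

/-- the vertices of the pairs in `J` -/
def AJ {m : ℕ} (J : Finset (Fin m)) : Set (Fin (2 * m)) := {v | pr v ∈ J}

theorem bb_AJ {m : ℕ} (J : Finset (Fin m)) : ∀ i, bb (cp m) (AJ J) i = if i = J.card then 1 else 0 := by
  classical
  induction J using Finset.induction_on with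
  | empty =>
    intro i
    have : AJ (∅ : Finset (Fin m)) = ∅ := by
      ext v
      simp [AJ]
    rw [this, bb_empty, Finset.card_empty]
  | insert p J hp ih =>
    intro i
    have h := bb_susp (G := cp m) (A := AJ (insert p J)) (s := v0 p) (t := v1 p)
      (show pr (v0 p) ∈ insert p J by rw [pr_v0]; exact Finset.mem_insert_self _ _)
      (show pr (v1 p) ∈ insert p J by rw [pr_v1]; exact Finset.mem_insert_self _ _) (v0_ne_v1 p)
      (by rw [cp_adj, pr_v0, pr_v1]; exact fun h => h rfl) (by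
        intro w hw h0 h1
        have hpw : p ≠ pr w := by
          intro e
          rcases v_cases w with h | h
          · exact h0 (by rw [h, ← e])
          · exact h1 (by rw [h, ← e])
        rw [cp_adj, cp_adj, pr_v0, pr_v1]
        exact ⟨hpw, hpw⟩)
    have hset : AJ (insert p J) \ {v0 p, v1 p} = AJ J := by
      ext w
      constructor
      · rintro ⟨h1, h2⟩
        have h1 : pr w ∈ insert p J := h1
        rcases Finset.mem_insert.1 h1 with h3 | h3
        · exfalso
          apply h2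
          rcases v_cases w with h | h
          · exact Or.inl (by rw [h, h3])
          · exact Or.inr (by rw [h, h3]; rfl)
        · exact h3
      · intro h1
        have h1 : pr w ∈ J := h1
        refine ⟨Finset.mem_insert_of_mem h1, ?_⟩
        rintro (h2 | h2)
        · rw [h2, pr_v0] at h1
          exact hp h1
        · have h2 : w = v1 p := h2
          rw [h2, pr_v1] at h1
          exact hp h1
    rw [Finset.card_insert_of_notMem hp]
    cases i with
    | zero => rw [h.1, if_neg (by omega)]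
    | succ i =>
      rw [h.2 i, hset, ih i]
      congr 1
      rw [eq_iff_iff]
      omega

theorem HSph_cp (m : ℕ) : HSph m (cp m) := by
  classical
  intro S hS i
  show bb (cp m) (lk (cp m) S) i = _
  have hlk : lk (cp m) S = AJ (S.image pr)ᶜ := by
    ext v
    constructor
    · intro h
      show pr v ∈ (S.image pr)ᶜ
      rw [Finset.mem_compl, Finset.mem_image]
      rintro ⟨u, hu, e⟩
      exact (cp_adj _ _).1 (h u hu) e.symm
    · intro h u hu
      have h : pr v ∈ (S.image pr)ᶜ := h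
      rw [Finset.mem_compl, Finset.mem_image] at h
      rw [cp_adj]
      exact fun e => h ⟨u, hu, e.symm⟩
  have hcard : (S.image pr).card = S.card := by
    refine Finset.card_image_of_injOn ?_
    intro a ha b hb e
    by_contra hab
    exact (cp_adj _ _).1 (hS ha hb hab) e
  have hle : S.card ≤ m := by
    rw [← hcard]
    have := Finset.card_le_univ (S.image pr)
    rwa [Fintype.card_fin] at this
  rw [hlk, bb_AJ, Finset.card_compl, Fintype.card_fin, hcard]
  congr 1
  rw [eq_iff_iff]
  omega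

/-- the differences of the coordinates -/
def df {m : ℕ} (x : Fin (2 * m) → ℝ) : EuclideanSpace ℝ (Fin m) := WithLp.toLp 2 fun p => x (v0 p) - x (v1 p)

theorem df_apply {m : ℕ} (x : Fin (2 * m) → ℝ) (p : Fin m) : df x p = x (v0 p) - x (v1 p) := rfl

theorem df_cont {m : ℕ} : Continuous (df : (Fin (2 * m) → ℝ) → EuclideanSpace ℝ (Fin m)) := by
  unfold df
  refine (PiLp.continuous_toLp 2 _).comp ?_
  fun_prop

theorem rea_pair {m : ℕ} {x : Fin (2 * m) → ℝ} (hx : x ∈ Rea (cp m)) (p : Fin m) : x (v0 p) = 0 ∨ x (v1 p) = 0 := by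
  by_contra h
  push Not at h
  have := hx.2.2 h.1 h.2 (v0_ne_v1 p)
  rw [cp_adj, pr_v0, pr_v1] at this
  exact this rfl

theorem rea_v0 {m : ℕ} {x : Fin (2 * m) → ℝ} (hx : x ∈ Rea (cp m)) (p : Fin m) : x (v0 p) = max (df x p) 0 := by
  rw [df_apply]
  have h0 := hx.1 (v0 p)
  have h1 := hx.1 (v1 p)
  rcases rea_pair hx p with h | h
  · rw [h, max_eq_right (by linarith)]
  · rw [h, sub_zero, max_eq_left h0]

theorem rea_v1 {m : ℕ} {x : Fin (2 * m) → ℝ} (hx : x ∈ Rea (cp m)) (p : Fin m) : x (v1 p) = max (- df x p) 0 := by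
  rw [df_apply]
  have h0 := hx.1 (v0 p)
  have h1 := hx.1 (v1 p)
  rcases rea_pair hx p with h | h
  · rw [h, zero_sub, neg_neg, max_eq_left h1]
  · rw [h, sub_zero, max_eq_right (by linarith)]

theorem sum_pairs {m : ℕ} (x : Fin (2 * m) → ℝ) : ∑ v, x v = ∑ p : Fin m, (x (v0 p) + x (v1 p)) := by
  classical
  rw [← Finset.sum_fiberwise_of_maps_to (s := Finset.univ) (t := (Finset.univ : Finset (Fin m))) (g := pr)
    (fun _ _ => Finset.mem_univ _)]
  refine Finset.sum_congr rfl fun p _ => ?_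
  have : (Finset.univ.filter fun v => pr v = p) = {v0 p, v1 p} := by
    ext v
    rw [Finset.mem_filter, Finset.mem_insert, Finset.mem_singleton]
    constructor
    · rintro ⟨-, h⟩
      rcases v_cases v with h1 | h1
      · exact Or.inl (by rw [h1, h])
      · exact Or.inr (by rw [h1, h])
    · rintro (h | h)
      · exact ⟨Finset.mem_univ _, by rw [h, pr_v0]⟩
      · exact ⟨Finset.mem_univ _, by rw [h, pr_v1]⟩
  rw [this, Finset.sum_pair (v0_ne_v1 p)]

theorem rea_abs {m : ℕ} {x : Fin (2 * m) → ℝ} (hx : x ∈ Rea (cp m)) : ∑ p : Fin m, |df x p| = 1 := by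
  have h := hx.2.1
  rw [finsum_eq_sum_of_fintype, sum_pairs] at h
  rw [← h]
  refine Finset.sum_congr rfl fun p _ => ?_
  rw [rea_v0 hx, rea_v1 hx]
  rcases le_total 0 (df x p) with h1 | h1
  · rw [abs_of_nonneg h1, max_eq_left h1, max_eq_right (by linarith), add_zero]
  · rw [abs_of_nonpos h1, max_eq_right h1, max_eq_left (by linarith), zero_add]

theorem df_ne {m : ℕ} {x : Fin (2 * m) → ℝ} (hx : x ∈ Rea (cp m)) : ‖df x‖ ≠ 0 := by
  intro h
  rw [norm_eq_zero] at h
  have h1 := rea_abs hx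
  rw [h] at h1
  simp at h1

theorem Sph_cp (d : ℕ) : Sph d (cp (2 * d + 1)) := by
  refine ⟨HSph_cp _, fun x => ‖df x‖⁻¹ • df x, ?_, ?_, ?_⟩
  · exact ((df_cont (m := 2 * d + 1)).norm.continuousOn.inv₀ fun x hx => df_ne hx).smul df_cont.continuousOn
  · intro x hx
    rw [norm_smul, norm_inv, norm_norm, inv_mul_cancel₀ (df_ne hx)]
  · intro x hx y hy hxy
    have hxy : ‖df x‖⁻¹ • df x = ‖df y‖⁻¹ • df y := hxy
    have hx0 := df_ne hx
    have hy0 := df_ne hy
    have hp : ∀ p, ‖df x‖⁻¹ * df x p = ‖df y‖⁻¹ * df y p := fun p => by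
      have := congrArg (fun z : EuclideanSpace ℝ (Fin (2 * d + 1)) => z p) hxy
      exact this
    have ha : ∑ p, ‖df x‖⁻¹ * |df x p| = ∑ p, ‖df y‖⁻¹ * |df y p| := by
      refine Finset.sum_congr rfl fun p _ => ?_
      have h1 : |‖df x‖⁻¹ * df x p| = |‖df y‖⁻¹ * df y p| := by rw [hp p]
      rw [abs_mul, abs_mul, abs_of_nonneg (inv_nonneg.2 (norm_nonneg _)),
        abs_of_nonneg (inv_nonneg.2 (norm_nonneg _))] at h1
      exact h1
    rw [← Finset.mul_sum, ← Finset.mul_sum, rea_abs hx, rea_abs hy, mul_one, mul_one] at ha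
    have hd : ∀ p, df x p = df y p := by
      intro p
      have h1 := hp p
      rw [ha] at h1
      exact mul_left_cancel₀ (inv_ne_zero hy0) h1
    funext v
    rcases v_cases v with h | h
    · rw [h, rea_v0 hx, rea_v0 hy, hd]
    · rw [h, rea_v1 hx, rea_v1 hy, hd]

end Pool.Agent.H77.SP
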