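import Pool.Agent.H77.SP.SphN

/-!
# Checking lists of moves

A graph on `{0, …, W - 1}` is stored in one number `M`: the bit `a * W + b` says if `a` and `b` are adjacent. The bits
of `A` are the vertices. Every vertex is `< W - 1`.
-/

set_option autoImplicit false

namespace Pool.Agent.H77.SP

/-! ### the spreading trick -/

/-- `1 + B + ⋯ + B ^ (k - 1)` -/
def ones (B : ℕ) : ℕ → ℕ
  | 0 => 0
  | k + 1 => ones B k * B + 1

/-- the bits `u * W`, `u < k` -/
def msk (W : ℕ) : ℕ → ℕ
  | 0 => 0
  | k + 1 => msk W k ||| 2 ^ (k * W)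

theorem mul_ones_div (B R : ℕ) (hR : R < B) : ∀ (k u : ℕ), u < k → (R * ones B k) / B ^ u % B = R := by
  intro k
  induction k with
  | zero => intro u hu; omega
  | succ k ih =>
    intro u hu
    have hB : 0 < B := by omega
    have e : R * ones B (k + 1) = R + B * (R * ones B k) := by
      show R * (ones B k * B + 1) = _
      ring
    cases u with
    | zero =>
      rw [pow_zero, Nat.div_one, e, Nat.add_mul_mod_self_left, Nat.mod_eq_of_lt hR]
    | succ u =>
      rw [pow_succ', ← Nat.div_div_eq_div_mul, e, Nat.add_mul_div_left _ _ hB, Nat.div_eq_of_lt hR, zero_add]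
      exact ih u (by omega)

theorem testBit_msk (W : ℕ) : ∀ (k q : ℕ), (msk W k).testBit q = true ↔ ∃ u < k, q = u * W := by
  intro k
  induction k with
  | zero =>
    intro q
    show (0 : ℕ).testBit q = true ↔ _
    rw [Nat.zero_testBit]
    constructor
    · intro h; exact absurd h (by decide)
    · rintro ⟨u, hu, _⟩; omega
  | succ k ih =>
    intro q
    show (msk W k ||| 2 ^ (k * W)).testBit q = true ↔ _
    rw [Nat.testBit_lor, Bool.or_eq_true, ih, Nat.testBit_two_pow, decide_eq_true_eq]
    constructor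
    · rintro (⟨u, hu, h⟩ | h)
      · exact ⟨u, by omega, h⟩
      · exact ⟨k, by omega, h.symm⟩
    · rintro ⟨u, hu, h⟩
      rcases Nat.lt_succ_iff_lt_or_eq.1 hu with h1 | h1
      · exact Or.inl ⟨u, h1, h⟩
      · exact Or.inr (by rw [h, h1])

/-- the constants -/
structure OK (W O K : ℕ) : Prop where
  pos : 2 ≤ W
  hO : O = ones (2 ^ (W - 1)) W
  hK : K = msk W W

/-- the bits of `R` moved from `u` to `u * W` -/
def spread (O K R : ℕ) : ℕ := (R * O) &&& K

theorem testBit_spread {W O K : ℕ} (h : OK W O K) {R : ℕ} (hR : R < 2 ^ (W - 1)) (q : ℕ) :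
    (spread O K R).testBit q = true ↔ ∃ u < W, q = u * W ∧ R.testBit u = true := by
  unfold spread
  rw [Nat.testBit_land, Bool.and_eq_true, h.hK, testBit_msk]
  have key : ∀ u < W, (R * O).testBit (u * W) = R.testBit u := by
    intro u hu
    have h1 := mul_ones_div (2 ^ (W - 1)) R hR W u hu
    by_cases hu1 : u < W - 1
    · have h2 : ((R * O) / (2 ^ (W - 1)) ^ u % 2 ^ (W - 1)).testBit u = R.testBit u := by rw [h.hO, h1]
      rw [Nat.testBit_mod_two_pow, decide_eq_true hu1, Bool.true_and, ← pow_mul, ← Nat.shiftRight_eq_div_pow,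
        Nat.testBit_shiftRight] at h2
      rw [← h2]
      congr 1
      have : W = (W - 1) + 1 := by omega
      conv_lhs => rw [this]
      ring
    · -- `u = W - 1`: the next digit
      have hu2 : u = W - 1 := by omega
      have hz : R.testBit u = false := Nat.testBit_lt_two_pow (by rw [hu2]; exact hR)
      rw [hz]
      have h3 : (R * O) / (2 ^ (W - 1)) ^ W = 0 := by
        have h4 : ∀ k, R * ones (2 ^ (W - 1)) k < (2 ^ (W - 1)) ^ k := by
          intro k
          induction k with
          | zero => show R * 0 < _; rw [mul_zero, pow_zero]; omega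
          | succ k ih =>
            show R * (ones (2 ^ (W - 1)) k * 2 ^ (W - 1) + 1) < _
            have h5 : R * (ones (2 ^ (W - 1)) k * 2 ^ (W - 1) + 1) =
                (R * ones (2 ^ (W - 1)) k) * 2 ^ (W - 1) + R := by ring
            rw [h5, pow_succ]
            calc (R * ones (2 ^ (W - 1)) k) * 2 ^ (W - 1) + R
                < (R * ones (2 ^ (W - 1)) k) * 2 ^ (W - 1) + 2 ^ (W - 1) := by omega
              _ = (R * ones (2 ^ (W - 1)) k + 1) * 2 ^ (W - 1) := by ring
              _ ≤ (2 ^ (W - 1)) ^ k * 2 ^ (W - 1) := Nat.mul_le_mul_right _ ih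
        rw [h.hO]
        exact Nat.div_eq_of_lt (h4 W)
      have h6 : u * W = W * (W - 1) + 0 := by
        rw [hu2]
        ring
      rw [h6, ← Nat.testBit_shiftRight, Nat.shiftRight_eq_div_pow]
      have h7 : 2 ^ (W * (W - 1)) = (2 ^ (W - 1)) ^ W := by rw [← pow_mul, mul_comm]
      rw [h7, h3, Nat.zero_testBit]
  constructor
  · rintro ⟨h1, u, hu, rfl⟩
    exact ⟨u, hu, rfl, by rw [← key u hu]; exact h1⟩
  · rintro ⟨u, hu, rfl, h1⟩
    exact ⟨by rw [key u hu]; exact h1, u, hu, rfl⟩

/-! ### rows -/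

/-- the row `a` -/
def row (W M a : ℕ) : ℕ := (M >>> (a * W)) &&& (2 ^ W - 1)

theorem testBit_row (W M a b : ℕ) : (row W M a).testBit b = (decide (b < W) && M.testBit (a * W + b)) := by
  unfold row
  rw [Nat.testBit_land, Nat.testBit_shiftRight, Nat.testBit_two_pow_sub_one, Bool.and_comm]

/-- the pair of bits of an edge -/
def eb (W s t : ℕ) : ℕ := 2 ^ (s * W + t) ||| 2 ^ (t * W + s)

theorem idx_inj {W a b c d : ℕ} (hb : b < W) (hd : d < W) : a * W + b = c * W + d ↔ a = c ∧ b = d := by
  constructor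
  · intro h
    have h1 : (a * W + b) / W = a := by
      rw [mul_comm, Nat.mul_add_div (by omega), Nat.div_eq_of_lt hb, add_zero]
    have h2 : (c * W + d) / W = c := by
      rw [mul_comm, Nat.mul_add_div (by omega), Nat.div_eq_of_lt hd, add_zero]
    have h3 : a = c := by rw [← h1, ← h2, h]
    subst h3
    exact ⟨rfl, by omega⟩
  · rintro ⟨rfl, rfl⟩
    rfl

theorem testBit_eb {W s t a b : ℕ} (hs : s < W) (ht : t < W) (hb : b < W) :
    (eb W s t).testBit (a * W + b) = true ↔ (a = s ∧ b = t) ∨ (a = t ∧ b = s) := by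
  unfold eb
  rw [Nat.testBit_lor, Bool.or_eq_true, Nat.testBit_two_pow, Nat.testBit_two_pow, decide_eq_true_eq,
    decide_eq_true_eq, idx_inj ht hb, idx_inj hs hb]
  constructor
  · rintro (⟨h1, h2⟩ | ⟨h1, h2⟩)
    · exact Or.inl ⟨h1.symm, h2.symm⟩
    · exact Or.inr ⟨h1.symm, h2.symm⟩
  · rintro (⟨h1, h2⟩ | ⟨h1, h2⟩)
    · exact Or.inl ⟨h1.symm, h2.symm⟩
    · exact Or.inr ⟨h1.symm, h2.symm⟩

/-- the row and the column `z` with the entries `R` -/
def cross (W O K z R : ℕ) : ℕ := (R <<< (z * W)) ||| ((spread O K R) <<< z)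

theorem testBit_cross {W O K : ℕ} (h : OK W O K) {R z a b : ℕ} (hR : R < 2 ^ (W - 1)) (ha : a < W) (hz : z < W)
    (hb : b < W) :
    (cross W O K z R).testBit (a * W + b) = true ↔ (a = z ∧ R.testBit b = true) ∨ (b = z ∧ R.testBit a = true) := by
  unfold cross
  rw [Nat.testBit_lor, Bool.or_eq_true, Nat.testBit_shiftLeft, Nat.testBit_shiftLeft, Bool.and_eq_true,
    Bool.and_eq_true, testBit_spread h hR, decide_eq_true_eq, decide_eq_true_eq]
  refine or_congr ?_ ?_
  · constructor
    · rintro ⟨h1, h2⟩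
      have h3 : a * W + b - z * W < W := by
        by_contra h4
        have h5 : R < 2 ^ (a * W + b - z * W) :=
          lt_of_lt_of_le hR (Nat.pow_le_pow_right (by norm_num) (by omega))
        rw [Nat.testBit_lt_two_pow h5] at h2
        exact absurd h2 (by decide)
      have h4 : a = z := by
        have h5 : a * W + b = z * W + (a * W + b - z * W) := by omega
        exact ((idx_inj hb h3).1 h5).1
      subst h4
      refine ⟨rfl, ?_⟩
      have : a * W + b - a * W = b := by omega
      rwa [this] at h2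
    · rintro ⟨rfl, h2⟩
      refine ⟨by omega, ?_⟩
      have : a * W + b - a * W = b := by omega
      rwa [this]
  · constructor
    · rintro ⟨h1, u, hu, h2, h3⟩
      have h4 : a * W + b = u * W + z := by omega
      obtain ⟨rfl, rfl⟩ := (idx_inj hb hz).1 h4
      exact ⟨rfl, h3⟩
    · rintro ⟨rfl, h2⟩
      exact ⟨by omega, a, ha, by omega, h2⟩

/-! ### the moves -/

/-- a move -/
structure Mv where
  /-- `true`: subdivision, `false`: weld -/
  k : Bool
  s : ℕ
  t : ℕ
  z : ℕ

/-- the row of the middle of the edge `s t` -/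
def mid (W M s t : ℕ) : ℕ := (row W M s &&& row W M t) ||| (2 ^ s ||| 2 ^ t)

/-- one step -/
def step (W O K : ℕ) (m : Mv) (A M : ℕ) : Option (ℕ × ℕ) :=
  match m.k with
  | true =>
    bif M.testBit (m.s * W + m.t) && !(A.testBit m.z) && Nat.blt m.z (W - 1) && Nat.blt m.s (W - 1) &&
      Nat.blt m.t (W - 1) then
      some (A ||| 2 ^ m.z, (M ^^^ eb W m.s m.t) ||| cross W O K m.z (mid W M m.s m.t))
    else none
  | false =>
    bif A.testBit m.s && A.testBit m.t && A.testBit m.z && Nat.blt m.z (W - 1) && Nat.blt m.s (W - 1) &&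
      Nat.blt m.t (W - 1) && !(Nat.beq m.s m.t) && !(Nat.beq m.s m.z) && !(Nat.beq m.t m.z) &&
      !(M.testBit (m.s * W + m.t)) && Nat.beq (row W M m.z) (mid W M m.s m.t ^^^ 2 ^ m.z) then
      some (A ^^^ 2 ^ m.z, (M ^^^ cross W O K m.z (row W M m.z)) ||| eb W m.s m.t)
    else none

/-- many steps -/
def run (W O K : ℕ) : List Mv → ℕ → ℕ → Option (ℕ × ℕ)
  | [], A, M => some (A, M)
  | m :: l, A, M => match step W O K m A M with
    | none => none
    | some (A', M') => run W O K l A' M'

/-- the graph of `A`, `M` is a sphere -/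
def Inv (d W A M : ℕ) : Prop := ∃ G : SimpleGraph ℕ,
  (∀ a < W, ∀ b < W, (M.testBit (a * W + b) = true ↔ G.Adj a b)) ∧
  (∀ a b, G.Adj a b → A.testBit a = true) ∧ (∀ a, A.testBit a = true → a < W - 1) ∧
  SphN d {a | A.testBit a = true} G

theorem lt_of_bits {R n : ℕ} (h : ∀ a, R.testBit a = true → a < n) : R < 2 ^ n := by
  refine Nat.lt_pow_two_of_testBit R fun i hi => ?_
  by_contra h1
  have := h i (by simpa using h1)
  omega

theorem testBit_mid {W M s t : ℕ} (x : ℕ) (hx : x < W) : (mid W M s t).testBit x = true ↔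
    x = s ∨ x = t ∨ (M.testBit (s * W + x) = true ∧ M.testBit (t * W + x) = true) := by
  unfold mid
  rw [Nat.testBit_lor, Nat.testBit_lor, Nat.testBit_land, testBit_row, testBit_row, decide_eq_true hx,
    Bool.true_and, Bool.true_and, Bool.or_eq_true, Bool.or_eq_true, Bool.and_eq_true, Nat.testBit_two_pow,
    Nat.testBit_two_pow, decide_eq_true_eq, decide_eq_true_eq, eq_comm (a := s), eq_comm (a := t)]
  tauto

theorem testBit_mid_lt {W M s t : ℕ} (hs : s < W) (ht : t < W) (x : ℕ) (h : (mid W M s t).testBit x = true) :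
    x < W := by
  unfold mid at h
  rw [Nat.testBit_lor, Nat.testBit_lor, Nat.testBit_land, testBit_row, testBit_row, Bool.or_eq_true,
    Bool.or_eq_true, Bool.and_eq_true, Nat.testBit_two_pow, Nat.testBit_two_pow, decide_eq_true_eq,
    decide_eq_true_eq, Bool.and_eq_true, decide_eq_true_eq] at h
  rcases h with ⟨⟨h, -⟩, -⟩ | h | h
  · exact h
  · omega
  · omega

theorem step_inv {d W O K : ℕ} (h : OK W O K) (m : Mv) {A M A' M' : ℕ} (hI : Inv d W A M)
    (hs : step W O K m A M = some (A', M')) : Inv d W A' M' := by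
  obtain ⟨k, s, t, z⟩ := m
  obtain ⟨G, g1, g2, g3, g4⟩ := hI
  have g2' : ∀ a b, G.Adj a b → A.testBit b = true := fun a b hab => g2 b a hab.symm
  have hW := h.pos
  cases k with
  | true =>
    simp only [step] at hs
    rw [Bool.cond_eq_ite] at hs
    split_ifs at hs with hc
    rw [Option.some.injEq, Prod.mk.injEq] at hs
    obtain ⟨rfl, rfl⟩ := hs
    simp only [Bool.and_eq_true, Nat.blt_eq, Bool.not_eq_true'] at hc
    obtain ⟨⟨⟨⟨hst, hz⟩, hz1⟩, hs1⟩, ht1⟩ := hc
    have hst' : G.Adj s t := (g1 s (by omega) t (by omega)).1 hst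
    have hsA : A.testBit s = true := g2 _ _ hst'
    have htA : A.testBit t = true := g2' _ _ hst'
    have hzs : z ≠ s := by rintro rfl; rw [hsA] at hz; exact absurd hz (by decide)
    have hzt : z ≠ t := by rintro rfl; rw [htA] at hz; exact absurd hz (by decide)
    have hmid : ∀ x < W, ((mid W M s t).testBit x = true ↔ x = s ∨ x = t ∨ (G.Adj s x ∧ G.Adj t x)) := by
      intro x hx
      rw [testBit_mid x hx, g1 s (by omega) x hx, g1 t (by omega) x hx]
    have hmA : ∀ x, (mid W M s t).testBit x = true → A.testBit x = true := by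
      intro x hx
      have hxW := testBit_mid_lt (by omega) (by omega) x hx
      rcases (hmid x hxW).1 hx with h1 | h1 | h1
      · rw [h1]; exact hsA
      · rw [h1]; exact htA
      · exact g2' _ _ h1.1
    have hmlt : mid W M s t < 2 ^ (W - 1) := lt_of_bits fun a ha => g3 a (hmA a ha)
    -- the new graph
    obtain ⟨G', hG'⟩ : ∃ G' : SimpleGraph ℕ, ∀ a b, G'.Adj a b ↔
        (G.Adj a b ∧ s(a, b) ≠ s(s, t)) ∨ (a = z ∧ (mid W M s t).testBit b = true) ∨
        (b = z ∧ (mid W M s t).testBit a = true) := by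
      refine ⟨{ Adj := fun a b => (G.Adj a b ∧ s(a, b) ≠ s(s, t)) ∨ (a = z ∧ (mid W M s t).testBit b = true) ∨
        (b = z ∧ (mid W M s t).testBit a = true), symm := ⟨?_⟩, loopless := ⟨?_⟩ }, fun a b => Iff.rfl⟩
      · rintro a b (⟨h1, h2⟩ | h1 | h1)
        · exact Or.inl ⟨h1.symm, by rwa [Sym2.eq_swap]⟩
        · exact Or.inr (Or.inr h1)
        · exact Or.inr (Or.inl h1)
      · rintro a (⟨h1, h2⟩ | ⟨h1, h2⟩ | ⟨h1, h2⟩)
        · exact G.loopless.irrefl _ h1
        · rw [h1] at h2
          rw [hmA z h2] at hz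
          exact absurd hz (by decide)
        · rw [h1] at h2
          rw [hmA z h2] at hz
          exact absurd hz (by decide)
    have hset : {a | (A ||| 2 ^ z).testBit a = true} = insert z {a | A.testBit a = true} := by
      ext a
      show (A ||| 2 ^ z).testBit a = true ↔ a = z ∨ A.testBit a = true
      rw [Nat.testBit_lor, Bool.or_eq_true, Nat.testBit_two_pow, decide_eq_true_eq]
      constructor
      · rintro (h1 | h1)
        · exact Or.inr h1
        · exact Or.inl h1.symm
      · rintro (h1 | h1)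
        · exact Or.inr h1.symm
        · exact Or.inl h1
    refine ⟨G', ?_, ?_, ?_, ?_⟩
    · intro a ha b hb
      rw [Nat.testBit_lor, Bool.or_eq_true, testBit_cross h hmlt ha (by omega) hb, hG', Nat.testBit_xor]
      refine or_congr ?_ Iff.rfl
      have e1 := g1 a ha b hb
      have e2 := testBit_eb (a := a) (s := s) (t := t) (by omega) (by omega) hb
      rw [Ne, Sym2.eq_iff, ← e2, ← e1]
      cases h1 : M.testBit (a * W + b) <;> cases h2 : (eb W s t).testBit (a * W + b)
      · decide
      · exfalso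
        rcases e2.1 h2 with ⟨h3, h4⟩ | ⟨h3, h4⟩
        · rw [h3, h4, hst] at h1
          exact absurd h1 (by decide)
        · rw [e1.2 (by rw [h3, h4]; exact hst'.symm)] at h1
          exact absurd h1 (by decide)
      · decide
      · decide
    · intro a b hab
      rw [hG'] at hab
      rw [Nat.testBit_lor, Bool.or_eq_true, Nat.testBit_two_pow, decide_eq_true_eq]
      rcases hab with ⟨h1, -⟩ | ⟨h1, -⟩ | ⟨-, h1⟩
      · exact Or.inl (g2 _ _ h1)
      · exact Or.inr h1.symm
      · exact Or.inl (hmA a h1)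
    · intro a ha
      rw [Nat.testBit_lor, Bool.or_eq_true, Nat.testBit_two_pow, decide_eq_true_eq] at ha
      rcases ha with h1 | h1
      · exact g3 a h1
      · omega
    · rw [hset]
      have hzn : z ∉ {a | A.testBit a = true} := by
        intro h1
        have h1 : A.testBit z = true := h1
        rw [hz] at h1
        exact absurd h1 (by decide)
      refine SphN_sub (a := s) (b := t) hzn hsA htA hst' ?_ ?_ g4
      · intro x hx y hy
        rw [hG']
        constructor
        · rintro (h1 | ⟨h1, -⟩ | ⟨h1, -⟩)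
          · exact h1
          · exact absurd (h1 ▸ hx) hzn
          · exact absurd (h1 ▸ hy) hzn
        · exact Or.inl
      · intro x hx
        have hx' : x < W := by
          have := g3 x hx
          omega
        rw [hG', ← hmid x hx']
        constructor
        · rintro (⟨h1, -⟩ | ⟨-, h1⟩ | ⟨h1, -⟩)
          · exact absurd (g2 _ _ h1) hzn
          · exact h1
          · exact absurd (h1 ▸ hx) hzn
        · exact fun h1 => Or.inr (Or.inl ⟨rfl, h1⟩)
  | false =>
    simp only [step] at hs
    rw [Bool.cond_eq_ite] at hs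
    split_ifs at hs with hc
    rw [Option.some.injEq, Prod.mk.injEq] at hs
    obtain ⟨rfl, rfl⟩ := hs
    simp only [Bool.and_eq_true, Nat.blt_eq, Bool.not_eq_true', Nat.beq_eq] at hc
    obtain ⟨⟨⟨⟨⟨⟨⟨⟨⟨⟨hsA, htA⟩, hzA⟩, hz1⟩, hs1⟩, ht1⟩, hst⟩, hsz⟩, htz⟩, hnst⟩, hrow⟩ := hc
    have hst : s ≠ t := fun e => by rw [e, Nat.beq_refl] at hst; exact absurd hst (by decide)
    have hsz : s ≠ z := fun e => by rw [e, Nat.beq_refl] at hsz; exact absurd hsz (by decide)
    have htz : t ≠ z := fun e => by rw [e, Nat.beq_refl] at htz; exact absurd htz (by decide)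
    have hrW : ∀ x < W, ((row W M z).testBit x = true ↔ G.Adj z x) := by
      intro x hx
      rw [testBit_row, decide_eq_true hx, Bool.true_and, g1 z (by omega) x hx]
    have hrA : ∀ x, (row W M z).testBit x = true → A.testBit x = true := by
      intro x hx
      rw [testBit_row, Bool.and_eq_true, decide_eq_true_eq] at hx
      exact g2' _ _ ((g1 z (by omega) x hx.1).1 hx.2)
    have hrlt : row W M z < 2 ^ (W - 1) := lt_of_bits fun a ha => g3 a (hrA a ha)
    have hmid : ∀ x < W, ((mid W M s t).testBit x = true ↔ x = s ∨ x = t ∨ (G.Adj s x ∧ G.Adj t x)) := by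
      intro x hx
      rw [testBit_mid x hx, g1 s (by omega) x hx, g1 t (by omega) x hx]
    have hzx : ∀ x, x < W → x ≠ z → (G.Adj z x ↔ x = s ∨ x = t ∨ (G.Adj s x ∧ G.Adj t x)) := by
      intro x hx hxz
      rw [← hrW x hx, hrow, Nat.testBit_xor, Nat.testBit_two_pow, decide_eq_false (Ne.symm hxz), Bool.xor_false,
        hmid x hx]
    have hnst' : ¬ G.Adj s t := by
      rw [← g1 s (by omega) t (by omega), hnst]
      decide
    -- the new graph
    obtain ⟨G', hG'⟩ : ∃ G' : SimpleGraph ℕ, ∀ a b, G'.Adj a b ↔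
        (G.Adj a b ∧ a ≠ z ∧ b ≠ z) ∨ (a = s ∧ b = t) ∨ (a = t ∧ b = s) := by
      refine ⟨{ Adj := fun a b => (G.Adj a b ∧ a ≠ z ∧ b ≠ z) ∨ (a = s ∧ b = t) ∨
        (a = t ∧ b = s), symm := ⟨?_⟩, loopless := ⟨?_⟩ }, fun a b => Iff.rfl⟩
      · rintro a b (⟨h1, h2, h3⟩ | ⟨h1, h2⟩ | ⟨h1, h2⟩)
        · exact Or.inl ⟨h1.symm, h3, h2⟩
        · exact Or.inr (Or.inr ⟨h2, h1⟩)
        · exact Or.inr (Or.inl ⟨h2, h1⟩)
      · rintro a (⟨h1, h2⟩ | ⟨h1, h2⟩ | ⟨h1, h2⟩)
        · exact G.loopless.irrefl _ h1
        · exact hst (h1.symm.trans h2)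
        · exact hst (h2.symm.trans h1)
    have hset : {a | A.testBit a = true} = insert z {a | (A ^^^ 2 ^ z).testBit a = true} := by
      ext a
      show A.testBit a = true ↔ a = z ∨ (A ^^^ 2 ^ z).testBit a = true
      rw [Nat.testBit_xor, Nat.testBit_two_pow]
      by_cases h1 : a = z
      · rw [h1, hzA]
        simp
      · rw [decide_eq_false (Ne.symm h1), Bool.xor_false]
        simp [h1]
    have hz' : z ∉ {a | (A ^^^ 2 ^ z).testBit a = true} := by
      intro h1
      have h1 : (A ^^^ 2 ^ z).testBit z = true := h1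
      rw [Nat.testBit_xor, Nat.testBit_two_pow, hzA, decide_eq_true rfl] at h1
      exact absurd h1 (by decide)
    have hA' : ∀ a, a ≠ z → ((A ^^^ 2 ^ z).testBit a = A.testBit a) := by
      intro a ha
      rw [Nat.testBit_xor, Nat.testBit_two_pow, decide_eq_false (Ne.symm ha), Bool.xor_false]
    refine ⟨G', ?_, ?_, ?_, ?_⟩
    · intro a ha b hb
      rw [Nat.testBit_lor, Bool.or_eq_true, testBit_eb (by omega) (by omega) hb, hG', Nat.testBit_xor]
      refine or_congr ?_ Iff.rfl
      have e1 := g1 a ha b hb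
      have e2 := testBit_cross h hrlt ha (by omega : z < W) hb
      rw [hrW a ha, hrW b hb] at e2
      constructor
      · intro h1
        cases h2 : M.testBit (a * W + b) with
        | false =>
          rw [h2] at h1
          have h3 : (cross W O K z (row W M z)).testBit (a * W + b) = true := by simpa using h1
          exfalso
          have h4 : ¬ G.Adj a b := by
            rw [← e1, h2]
            decide
          rcases e2.1 h3 with ⟨h5, h6⟩ | ⟨h5, h6⟩
          · rw [h5] at h4
            exact h4 h6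
          · rw [h5] at h4
            exact h4 h6.symm
        | true =>
          rw [h2] at h1
          have h3 : (cross W O K z (row W M z)).testBit (a * W + b) ≠ true := by
            intro h3
            rw [h3] at h1
            exact absurd h1 (by decide)
          have h4 := e1.1 h2
          refine ⟨h4, ?_, ?_⟩
          · intro h5
            apply h3
            rw [e2]
            exact Or.inl ⟨h5, h5 ▸ h4⟩
          · intro h5
            apply h3
            rw [e2]
            exact Or.inr ⟨h5, h5 ▸ h4.symm⟩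
      · rintro ⟨h1, h2, h3⟩
        rw [e1.2 h1]
        have h4 : (cross W O K z (row W M z)).testBit (a * W + b) = false := by
          rw [← Bool.not_eq_true, e2]
          rintro (⟨h5, -⟩ | ⟨h5, -⟩)
          · exact h2 h5
          · exact h3 h5
        rw [h4]
        decide
    · intro a b hab
      rw [hG'] at hab
      rcases hab with ⟨h1, h2, h3⟩ | ⟨h1, -⟩ | ⟨h1, -⟩
      · rw [hA' a h2]
        exact g2 _ _ h1
      · rw [h1, hA' s hsz]
        exact hsA
      · rw [h1, hA' t htz]
        exact htA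
    · intro a ha
      by_cases h1 : a = z
      · rw [h1]
        exact hz1
      · rw [hA' a h1] at ha
        exact g3 a ha
    · rw [hset] at g4
      have hxz : ∀ x ∈ {a | (A ^^^ 2 ^ z).testBit a = true}, x ≠ z := fun x hx e => hz' (e ▸ hx)
      have hxA : ∀ x ∈ {a | (A ^^^ 2 ^ z).testBit a = true}, A.testBit x = true := fun x hx => by
        have hx' : (A ^^^ 2 ^ z).testBit x = true := hx
        rwa [hA' x (hxz x hx)] at hx'
      refine SphN_weld (a := s) (b := t) (z := z) hz' (show (A ^^^ 2 ^ z).testBit s = true by rw [hA' s hsz]; exact hsA)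
        (show (A ^^^ 2 ^ z).testBit t = true by rw [hA' t htz]; exact htA)
        ((hG' s t).2 (Or.inr (Or.inl ⟨rfl, rfl⟩))) ?_ ?_ g4
      · intro x hx y hy
        have hse : s(x, y) ≠ s(s, t) ↔ ¬ ((x = s ∧ y = t) ∨ (x = t ∧ y = s)) := by rw [Ne, Sym2.eq_iff]
        rw [hG', hse]
        constructor
        · intro h1
          refine ⟨Or.inl ⟨h1, hxz x hx, hxz y hy⟩, ?_⟩
          rintro (⟨h2, h3⟩ | ⟨h2, h3⟩)
          · rw [h2, h3] at h1
            exact hnst' h1
          · rw [h2, h3] at h1
            exact hnst' h1.symm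
        · rintro ⟨⟨h1, -⟩ | h1, h2⟩
          · exact h1
          · exact absurd h1 h2
      · intro x hx
        have hxW : x < W := by
          have := g3 x (hxA x hx)
          omega
        rw [hzx x hxW (hxz x hx), hG', hG']
        constructor
        · rintro (h1 | h1 | ⟨h1, h2⟩)
          · exact Or.inl h1
          · exact Or.inr (Or.inl h1)
          · exact Or.inr (Or.inr ⟨Or.inl ⟨h1, hsz, hxz x hx⟩, Or.inl ⟨h2, htz, hxz x hx⟩⟩)
        · rintro (h1 | h1 | ⟨h1, h2⟩)
          · exact Or.inl h1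
          · exact Or.inr (Or.inl h1)
          · rcases h1 with ⟨h1, -⟩ | ⟨-, h1⟩ | ⟨h1, -⟩
            · rcases h2 with ⟨h2, -⟩ | ⟨h2, -⟩ | ⟨-, h2⟩
              · exact Or.inr (Or.inr ⟨h1, h2⟩)
              · exact absurd h2.symm hst
              · exact Or.inl h2
            · exact Or.inr (Or.inl h1)
            · exact absurd h1 hst

theorem run_inv {d W O K : ℕ} (h : OK W O K) (l : List Mv) : ∀ {A M A' M' : ℕ}, Inv d W A M →
    run W O K l A M = some (A', M') → Inv d W A' M' := by
  induction l with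
  | nil =>
    intro A M A' M' hI hr
    simp only [run, Option.some.injEq, Prod.mk.injEq] at hr
    obtain ⟨rfl, rfl⟩ := hr
    exact hI
  | cons m l ih =>
    intro A M A' M' hI hr
    simp only [run] at hr
    cases h1 : step W O K m A M with
    | none => rw [h1] at hr; exact absurd hr (by simp)
    | some p =>
      obtain ⟨A1, M1⟩ := p
      rw [h1] at hr
      exact ih (step_inv h m hI h1) hr

end Pool.Agent.H77.SP
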