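import Pool.Agent.H77.SP.Start

/-!
# Checking a doubled cycle modulo `3`
-/

set_option autoImplicit false

namespace Pool.Agent.H77.SP

open Pool.Agent.W907.SG
open Pool.Agent.N496.LT.Lt (Sph Dbl)

/-- the number of a set -/
def enc {n : ℕ} (σ : Finset (Fin n)) : ℕ := Nat.ofBits fun v => decide (v ∈ σ)

theorem testBit_enc {n : ℕ} (σ : Finset (Fin n)) (v : Fin n) : (enc σ).testBit v.1 = decide (v ∈ σ) := by
  unfold enc
  rw [Nat.testBit_ofBits_lt _ v.1 v.2]

theorem testBit_enc_ge {n : ℕ} (σ : Finset (Fin n)) (k : ℕ) (hk : n ≤ k) : (enc σ).testBit k = false := by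
  unfold enc
  rw [Nat.testBit_ofBits_ge _ k hk]

/-- the set of a number -/
def dec (n m : ℕ) : Finset (Fin n) := Finset.univ.filter fun v => m.testBit v.1 = true

theorem mem_dec {n m : ℕ} (v : Fin n) : v ∈ dec n m ↔ m.testBit v.1 = true := by
  unfold dec
  rw [Finset.mem_filter]
  exact ⟨fun h => h.2, fun h => ⟨Finset.mem_univ _, h⟩⟩

theorem enc_dec {n m : ℕ} (h : m < 2 ^ n) : enc (dec n m) = m := by
  refine Nat.eq_of_testBit_eq fun k => ?_
  by_cases hk : k < n
  · have h1 := testBit_enc (dec n m) ⟨k, hk⟩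
    have h1 : (enc (dec n m)).testBit k = decide ((⟨k, hk⟩ : Fin n) ∈ dec n m) := h1
    rw [h1]
    cases h2 : m.testBit k with
    | true => exact decide_eq_true ((mem_dec _).2 h2)
    | false => exact decide_eq_false fun h3 => by rw [mem_dec] at h3; rw [h3] at h2; exact absurd h2 (by decide)
  · rw [testBit_enc_ge _ _ (by omega)]
    symm
    exact Nat.testBit_lt_two_pow (lt_of_lt_of_le h (Nat.pow_le_pow_right (by norm_num) (by omega)))

theorem enc_insert {n : ℕ} (v : Fin n) (τ : Finset (Fin n)) : enc (insert v τ) = enc τ ||| 2 ^ v.1 := by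
  refine Nat.eq_of_testBit_eq fun k => ?_
  rw [Nat.testBit_lor, Nat.testBit_two_pow]
  by_cases hk : k < n
  · have h1 := testBit_enc (insert v τ) ⟨k, hk⟩
    have h2 := testBit_enc τ ⟨k, hk⟩
    have h1 : (enc (insert v τ)).testBit k = decide ((⟨k, hk⟩ : Fin n) ∈ insert v τ) := h1
    have h2 : (enc τ).testBit k = decide ((⟨k, hk⟩ : Fin n) ∈ τ) := h2
    rw [h1, h2, ← Bool.decide_or]
    refine decide_eq_decide.2 ?_
    rw [Finset.mem_insert, Fin.ext_iff]
    constructor
    · rintro (h | h)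
      · exact Or.inr h.symm
      · exact Or.inl h
    · rintro (h | h)
      · exact Or.inr h
      · exact Or.inl h.symm
  · rw [testBit_enc_ge _ _ (by omega), testBit_enc_ge _ _ (by omega), decide_eq_false (by omega)]
    rfl

/-- the number of the bits below `k` -/
def cnt (m : ℕ) : ℕ → ℕ
  | 0 => 0
  | k + 1 => cnt m k + (m.testBit k).toNat

theorem card_filter {n : ℕ} (σ : Finset (Fin n)) : ∀ k, k ≤ n →
    (σ.filter fun u => u.1 < k).card = cnt (enc σ) k := by
  intro k
  induction k with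
  | zero =>
    intro _
    show _ = 0
    rw [Finset.card_eq_zero, Finset.filter_eq_empty_iff]
    intro x _
    omega
  | succ k ih =>
    intro hk
    show _ = cnt (enc σ) k + ((enc σ).testBit k).toNat
    rw [← ih (by omega)]
    have h1 := testBit_enc σ ⟨k, hk⟩
    have h1 : (enc σ).testBit k = decide ((⟨k, hk⟩ : Fin n) ∈ σ) := h1
    rw [h1]
    by_cases h2 : (⟨k, hk⟩ : Fin n) ∈ σ
    · rw [decide_eq_true h2]
      have h3 : (σ.filter fun u => u.1 < k + 1) = insert ⟨k, hk⟩ (σ.filter fun u => u.1 < k) := by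
        ext u
        rw [Finset.mem_insert, Finset.mem_filter, Finset.mem_filter, Fin.ext_iff]
        constructor
        · rintro ⟨h3, h4⟩
          rcases Nat.lt_succ_iff_lt_or_eq.1 h4 with h5 | h5
          · exact Or.inr ⟨h3, h5⟩
          · exact Or.inl h5
        · rintro (h3 | h3)
          · have : u = ⟨k, hk⟩ := Fin.ext h3
            rw [this]
            exact ⟨h2, by show k < k + 1; omega⟩
          · exact ⟨h3.1, by omega⟩
      rw [h3, Finset.card_insert_of_notMem (by rw [Finset.mem_filter]; rintro ⟨-, h⟩; exact absurd h (by simp))]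
      rfl
    · rw [decide_eq_false h2]
      show _ = _ + 0
      rw [add_zero]
      congr 1
      refine Finset.filter_congr fun u hu => ?_
      constructor
      · intro h4
        rcases Nat.lt_succ_iff_lt_or_eq.1 h4 with h5 | h5
        · exact h5
        · exact absurd (by rw [show (⟨k, hk⟩ : Fin n) = u from Fin.ext h5.symm]; exact hu) h2
      · intro h4
        omega

theorem card_eq {n : ℕ} (σ : Finset (Fin n)) : σ.card = cnt (enc σ) n := by
  rw [← card_filter σ n le_rfl]
  congr 1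
  symm
  rw [Finset.filter_eq_self]
  exact fun u _ => u.2

theorem sg_eq {n : ℕ} (v : Fin n) (τ : Finset (Fin n)) : sg v τ = (-1) ^ cnt (enc τ) v.1 := by
  unfold sg
  rw [← card_filter τ v.1 v.2.le]
  rfl

/-- the coefficient -/
def cf : List (ℕ × ℕ) → ℕ → ℕ
  | [], _ => 0
  | (a, c) :: l, m => bif Nat.beq a m then c else cf l m

theorem cf_mem {l : List (ℕ × ℕ)} {m : ℕ} (h : cf l m ≠ 0) : ∃ x ∈ l, x.1 = m := by
  induction l with
  | nil => exact absurd rfl h
  | cons x l ih =>
    obtain ⟨a, c⟩ := x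
    by_cases h1 : a = m
    · exact ⟨_, List.mem_cons_self, h1⟩
    · have h2 : Nat.beq a m = false := by
        cases h3 : Nat.beq a m with
        | true => exact absurd (Nat.eq_of_beq_eq_true h3) h1
        | false => rfl
      have h3 : cf ((a, c) :: l) m = cf l m := by
        show (bif Nat.beq a m then c else cf l m) = _
        rw [h2]
        rfl
      rw [h3] at h
      obtain ⟨x, hx, e⟩ := ih h
      exact ⟨x, List.mem_cons_of_mem _ hx, e⟩

/-- a term of the boundary -/
def cyt (l : List (ℕ × ℕ)) (m v : ℕ) : ℕ :=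
  bif m.testBit v then 0 else (bif Nat.beq (cnt m v % 2) 0 then cf l (m ||| 2 ^ v) else 2 * cf l (m ||| 2 ^ v))

/-- the boundary -/
def cy (l : List (ℕ × ℕ)) (m : ℕ) : ℕ → ℕ
  | 0 => 0
  | k + 1 => cy l m k + cyt l m k

theorem cy_sum (l : List (ℕ × ℕ)) (m k : ℕ) : cy l m k = ∑ v ∈ Finset.range k, cyt l m v := by
  induction k with
  | zero => rfl
  | succ k ih => rw [Finset.sum_range_succ, ← ih]; rfl

theorem bd_eq {n : ℕ} (l : List (ℕ × ℕ)) (τ : Finset (Fin n)) :
    ∑ v ∈ τᶜ, sg v τ • ((cf l (enc (insert v τ)) : ℕ) : ZMod 3) = ((cy l (enc τ) n : ℕ) : ZMod 3) := by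
  rw [cy_sum, ← Fin.sum_univ_eq_sum_range, Nat.cast_sum, ← Finset.sum_compl_add_sum τ]
  have h1 : ∑ v ∈ τ, ((cyt l (enc τ) v.1 : ℕ) : ZMod 3) = 0 := by
    refine Finset.sum_eq_zero fun v hv => ?_
    unfold cyt
    rw [testBit_enc, decide_eq_true hv]
    rfl
  rw [h1, add_zero]
  refine Finset.sum_congr rfl fun v hv => ?_
  have hv' : v ∉ τ := Finset.mem_compl.1 hv
  unfold cyt
  rw [testBit_enc, decide_eq_false hv', sg_eq, enc_insert]
  show _ = ((bif Nat.beq (cnt (enc τ) v.1 % 2) 0 then cf l (enc τ ||| 2 ^ v.1)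
    else 2 * cf l (enc τ ||| 2 ^ v.1) : ℕ) : ZMod 3)
  rcases Nat.even_or_odd (cnt (enc τ) v.1) with h2 | h2
  · have h3 : cnt (enc τ) v.1 % 2 = 0 := Nat.even_iff.1 h2
    rw [h3, h2.neg_one_pow, one_smul]
    rfl
  · have h3 : cnt (enc τ) v.1 % 2 = 1 := Nat.odd_iff.1 h2
    rw [h3, h2.neg_one_pow]
    show _ = ((2 * cf l (enc τ ||| 2 ^ v.1) : ℕ) : ZMod 3)
    rw [Nat.cast_mul, neg_one_zsmul]
    have h4 : ((2 : ℕ) : ZMod 3) = -1 := by decide
    rw [h4, neg_one_mul]

/-- adjacency -/
def ad (W M x y : ℕ) : Bool := !(Nat.beq x y) && (M.testBit (x * W + y) || M.testBit (y * W + x))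

theorem ad_iff {W M N x y : ℕ} (hx : x < N) (hy : y < N) :
    ad W M x y = true ↔ (gph W M N).Adj ⟨x, hx⟩ ⟨y, hy⟩ := by
  unfold ad
  rw [Bool.and_eq_true, Bool.not_eq_true']
  refine and_congr ?_ Iff.rfl
  rw [Ne, Fin.mk.injEq]
  constructor
  · intro h e
    rw [e, Nat.beq_refl] at h
    exact absurd h (by decide)
  · intro h
    cases h1 : Nat.beq x y with
    | true => exact absurd (Nat.eq_of_beq_eq_true h1) h
    | false => rfl

/-- the labels of the lifts -/
def lab (lf : List (ℕ × ℕ)) (v : ℕ) (b : Bool) : ℕ := bif b then (lf.getD v (0, 0)).2 else (lf.getD v (0, 0)).1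

/-- all four pairs of lifts -/
def all4 (f : Bool → Bool → Bool) : Bool := f false false && f false true && f true false && f true true

theorem all4_iff {f : Bool → Bool → Bool} (h : all4 f = true) : ∀ a b, f a b = true := by
  unfold all4 at h
  rw [Bool.and_eq_true, Bool.and_eq_true, Bool.and_eq_true] at h
  obtain ⟨⟨⟨h1, h2⟩, h3⟩, h4⟩ := h
  intro a b
  cases a <;> cases b
  · exact h1
  · exact h2
  · exact h3
  · exact h4

/-- the whole check -/
def dchk (d n N W M : ℕ) (l lf : List (ℕ × ℕ)) (U : ℕ) (col : List ℕ) : Bool :=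
  (l.any fun x => Nat.blt x.1 (2 ^ n) && !(Nat.beq (cf l x.1 % 3) 0)) &&
  (l.all fun x => Nat.blt x.1 (2 ^ n) && Nat.beq (cnt x.1 n) (d + 1) &&
    ((List.range n).all fun v => !(x.1.testBit v) || Nat.beq (cy l (x.1 ^^^ 2 ^ v) n % 3) 0)) &&
  ((List.range n).all fun v => Nat.blt (lab lf v false) N && Nat.blt (lab lf v true) N &&
    Nat.blt (col.getD v 0) (d + 1)) &&
  ((List.range n).all fun v => (List.range n).all fun w => Nat.beq v w ||
    all4 fun a b => !(Nat.beq (lab lf v a) (lab lf w b))) &&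
  ((List.range n).all fun v => bif U.testBit v then Nat.beq (lab lf v true) (lab lf v false) else
    !(Nat.beq (lab lf v true) (lab lf v false)) && !(ad W M (lab lf v true) (lab lf v false))) &&
  (l.all fun x => (List.range n).all fun v => !(x.1.testBit v) || (List.range n).all fun w =>
    !(x.1.testBit w) || Nat.beq v w || all4 fun a b => ad W M (lab lf v a) (lab lf w b)) &&
  ((List.range n).all fun v => !(U.testBit v) || (List.range n).all fun w => !(U.testBit w) || Nat.beq v w ||
    ad W M (lab lf v true) (lab lf w true)) &&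
  ((List.range n).all fun v => (List.range n).all fun w => all4 fun a b =>
    !(ad W M (lab lf v a) (lab lf w b)) || !(Nat.beq (col.getD v 0) (col.getD w 0)))

theorem beq_false {a b : ℕ} (h : Nat.beq a b = false) : a ≠ b := by
  intro e
  rw [e, Nat.beq_refl] at h
  exact absurd h (by decide)

theorem beq_iff {a b : ℕ} : Nat.beq a b = true ↔ a = b :=
  ⟨Nat.eq_of_beq_eq_true, fun h => by rw [h, Nat.beq_refl]⟩

theorem blt_iff {a b : ℕ} : Nat.blt a b = true ↔ a < b := by
  rw [Nat.blt_eq]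

theorem dchk_sound {d n N W M : ℕ} {l lf : List (ℕ × ℕ)} {U : ℕ} {col : List ℕ}
    (h : dchk d n N W M l lf U col = true) :
    ∃ (Z : Dbl (ZMod 3) (gph W M N) d) (κ : Fin Z.n → Fin (d + 1)), Z.U.card = cnt U n ∧
      ∀ v w a b, (gph W M N).Adj (Z.j v a) (Z.j w b) → κ v ≠ κ w := by
  classical
  unfold dchk at h
  simp only [Bool.and_eq_true] at h
  obtain ⟨⟨⟨⟨⟨⟨⟨c1, c2⟩, c3⟩, c4⟩, c5⟩, c6⟩, c7⟩, c8⟩ := h
  rw [List.any_eq_true] at c1
  rw [List.all_eq_true] at c2 c3 c4 c5 c6 c7 c8
  have c3a : ∀ (v : Fin n) (b : Bool), lab lf v.1 b < N := by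
    intro v b
    have := c3 v.1 (List.mem_range.2 v.2)
    rw [Bool.and_eq_true, Bool.and_eq_true, blt_iff, blt_iff] at this
    cases b
    · exact this.1.1
    · exact this.1.2
  have c3b : ∀ (v : Fin n), col.getD v.1 0 < d + 1 := by
    intro v
    have := c3 v.1 (List.mem_range.2 v.2)
    rw [Bool.and_eq_true, blt_iff] at this
    exact this.2
  have hz : ∀ σ : Finset (Fin n), ((cf l (enc σ) : ℕ) : ZMod 3) ≠ 0 → ∃ x ∈ l, x.1 = enc σ := by
    intro σ h1
    refine cf_mem fun h2 => h1 ?_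
    rw [h2, Nat.cast_zero]
  let j : Fin n → Bool → Fin N := fun v b => ⟨lab lf v.1 b, c3a v b⟩
  let κ : Fin n → Fin (d + 1) := fun v => ⟨col.getD v.1 0, c3b v⟩
  let z : Finset (Fin n) → ZMod 3 := fun σ => ((cf l (enc σ) : ℕ) : ZMod 3)
  have hzc : ∀ τ : Finset (Fin n), ∑ v ∈ τᶜ, (sg v τ) • z (insert v τ) = 0 := by
    intro τ
    have h1 := bd_eq l τ
    show ∑ v ∈ τᶜ, (sg v τ) • ((cf l (enc (insert v τ)) : ℕ) : ZMod 3) = 0
    by_cases h2 : ∃ v ∈ τᶜ, ((cf l (enc (insert v τ)) : ℕ) : ZMod 3) ≠ 0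
    · obtain ⟨v, hv, h3⟩ := h2
      obtain ⟨x, hx, h4⟩ := hz _ h3
      have h5 := c2 x hx
      simp only [Bool.and_eq_true, List.all_eq_true, Bool.or_eq_true, Bool.not_eq_true'] at h5
      have h6 := h5.2 v.1 (List.mem_range.2 v.2)
      rw [h4, enc_insert] at h6
      have h7 : (enc τ ||| 2 ^ v.1) ^^^ 2 ^ v.1 = enc τ := by
        refine Nat.eq_of_testBit_eq fun k => ?_
        rw [Nat.testBit_xor, Nat.testBit_lor, Nat.testBit_two_pow]
        by_cases hk : v.1 = k
        · rw [decide_eq_true hk, ← hk, testBit_enc, decide_eq_false (Finset.mem_compl.1 hv)]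
          rfl
        · rw [decide_eq_false hk, Bool.or_false, Bool.xor_false]
      rw [h7] at h6
      rcases h6 with h6 | h6
      · rw [Nat.testBit_lor, Nat.testBit_two_pow, decide_eq_true rfl, Bool.or_true] at h6
        exact absurd h6 (by decide)
      · rw [h1]
        have h8 : cy l (enc τ) n % 3 = 0 := Nat.eq_of_beq_eq_true h6
        exact (ZMod.natCast_eq_zero_iff _ _).2 (Nat.dvd_of_mod_eq_zero h8)
    · refine Finset.sum_eq_zero fun v hv => ?_
      have h3 : ((cf l (enc (insert v τ)) : ℕ) : ZMod 3) = 0 := by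
        by_contra h4
        exact h2 ⟨v, hv, h4⟩
      rw [h3, smul_zero]
  have hjn : ∀ v w, v ≠ w → ∀ a b, j v a ≠ j w b := by
    intro v w hvw a b e
    have h1 := c4 v.1 (List.mem_range.2 v.2)
    rw [List.all_eq_true] at h1
    have h2 := h1 w.1 (List.mem_range.2 w.2)
    rw [Bool.or_eq_true] at h2
    rcases h2 with h2 | h2
    · exact hvw (Fin.ext (Nat.eq_of_beq_eq_true h2))
    · have h3 := all4_iff h2 a b
      rw [Bool.not_eq_true'] at h3
      exact beq_false h3 (congrArg Fin.val e)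
  have hUm : ∀ v : Fin n, v ∈ dec n U ↔ U.testBit v.1 = true := fun v => mem_dec v
  have hjU : ∀ v ∈ dec n U, j v true = j v false := by
    intro v hv
    have h1 := c5 v.1 (List.mem_range.2 v.2)
    rw [(hUm v).1 hv] at h1
    exact Fin.ext (Nat.eq_of_beq_eq_true h1)
  have hja : ∀ v, v ∉ dec n U → j v true ≠ j v false ∧ ¬ (gph W M N).Adj (j v true) (j v false) := by
    intro v hv
    have h1 := c5 v.1 (List.mem_range.2 v.2)
    have h2 : U.testBit v.1 = false := by
      rw [← Bool.not_eq_true]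
      exact fun h => hv ((hUm v).2 h)
    rw [h2] at h1
    have h1 : (!(Nat.beq (lab lf v true) (lab lf v false)) && !(ad W M (lab lf v true) (lab lf v false))) = true := h1
    rw [Bool.and_eq_true, Bool.not_eq_true', Bool.not_eq_true'] at h1
    refine ⟨fun e => beq_false h1.1 (congrArg Fin.val e), fun h3 => ?_⟩
    have h4 := (ad_iff (c3a v true) (c3a v false)).2 h3
    rw [h1.2] at h4
    exact absurd h4 (by decide)
  have hcl : ∀ σ, z σ ≠ 0 → ∀ v ∈ σ, ∀ w ∈ σ, v ≠ w → ∀ a b, (gph W M N).Adj (j v a) (j w b) := by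
    intro σ hσ v hv w hw hvw a b
    obtain ⟨x, hx, h4⟩ := hz σ hσ
    have h5 := c6 x hx
    rw [List.all_eq_true] at h5
    have h6 := h5 v.1 (List.mem_range.2 v.2)
    rw [h4, testBit_enc, decide_eq_true hv, Bool.not_true, Bool.false_or, List.all_eq_true] at h6
    have h7 := h6 w.1 (List.mem_range.2 w.2)
    rw [testBit_enc, decide_eq_true hw, Bool.not_true, Bool.false_or, Bool.or_eq_true] at h7
    rcases h7 with h7 | h7
    · exact absurd (Fin.ext (Nat.eq_of_beq_eq_true h7)) hvw
    · exact (ad_iff (c3a v a) (c3a w b)).1 (all4_iff h7 a b)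
  have hcU : ∀ v ∈ dec n U, ∀ w ∈ dec n U, v ≠ w → (gph W M N).Adj (j v true) (j w true) := by
    intro v hv w hw hvw
    have h5 := c7 v.1 (List.mem_range.2 v.2)
    rw [(hUm v).1 hv, Bool.not_true, Bool.false_or, List.all_eq_true] at h5
    have h6 := h5 w.1 (List.mem_range.2 w.2)
    rw [(hUm w).1 hw, Bool.not_true, Bool.false_or, Bool.or_eq_true] at h6
    rcases h6 with h6 | h6
    · exact absurd (Fin.ext (Nat.eq_of_beq_eq_true h6)) hvw
    · exact (ad_iff (c3a v true) (c3a w true)).1 h6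
  have hzn : z ≠ 0 := by
    obtain ⟨x, hx, h1⟩ := c1
    rw [Bool.and_eq_true, blt_iff, Bool.not_eq_true'] at h1
    intro h2
    have h3 : ((cf l (enc (dec n x.1)) : ℕ) : ZMod 3) = 0 := congrFun h2 (dec n x.1)
    rw [enc_dec h1.1] at h3
    exact beq_false h1.2 (Nat.mod_eq_zero_of_dvd ((ZMod.natCast_eq_zero_iff _ _).1 h3))
  have hzk : ∀ σ, z σ ≠ 0 → σ.card = d + 1 := by
    intro σ hσ
    obtain ⟨x, hx, h4⟩ := hz σ hσ
    have h5 := c2 x hx
    simp only [Bool.and_eq_true] at h5
    rw [card_eq, ← h4]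
    exact Nat.eq_of_beq_eq_true h5.1.2
  refine ⟨⟨n, z, j, dec n U, hzn, hzk, hzc, hjn, hjU, hja, hcl, hcU⟩, κ, ?_, ?_⟩
  · show (dec n U).card = cnt U n
    rw [card_eq]
    -- the bits below `n` agree
    have : ∀ k ≤ n, cnt (enc (dec n U)) k = cnt U k := by
      intro k
      induction k with
      | zero => intro _; rfl
      | succ k ih =>
        intro hk
        show cnt (enc (dec n U)) k + _ = cnt U k + _
        rw [ih (by omega)]
        have h1 := testBit_enc (dec n U) ⟨k, hk⟩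
        have h1 : (enc (dec n U)).testBit k = decide ((⟨k, hk⟩ : Fin n) ∈ dec n U) := h1
        rw [h1]
        congr 2
        cases h2 : U.testBit k with
        | true => exact decide_eq_true ((hUm _).2 h2)
        | false => exact decide_eq_false fun h3 => by rw [hUm] at h3; rw [h3] at h2; exact absurd h2 (by decide)
    exact this n le_rfl
  · intro v w a b hab
    have h1 := c8 v.1 (List.mem_range.2 v.2)
    rw [List.all_eq_true] at h1
    have h2 := all4_iff (h1 w.1 (List.mem_range.2 w.2)) a b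
    rw [Bool.or_eq_true, Bool.not_eq_true', Bool.not_eq_true'] at h2
    have h3 := (ad_iff (c3a v a) (c3a w b)).2 hab
    rcases h2 with h2 | h2
    · rw [h2] at h3
      exact absurd h3 (by decide)
    · intro e
      exact beq_false h2 (congrArg Fin.val e)

end Pool.Agent.H77.SP
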