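/-!
# The raw form of the checker (no imports)
-/

set_option autoImplicit false

namespace Pool.Agent.H77.SP

/-- the number with the digits `l` in base `2 ^ w` (the first digit is the lowest one) -/
noncomputable def packR (w : Nat) (l : List Nat) : Nat :=
  List.rec (motive := fun _ => Nat) 0 (fun r _ ih => Nat.lor r (Nat.shiftLeft ih w)) l

/-- the sum of `2 ^ x` over the first `k` digits `x` of `c` in base `D = 2 ^ e` -/
def sprR (e D k c : Nat) : Nat :=
  Nat.rec (motive := fun _ => Nat → Nat) (fun _ => 0)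
    (fun _ ih x => Nat.lor (Nat.pow 2 (Nat.mod x D)) (ih (Nat.shiftRight x e))) k c

/-- `n` rows of `W` bits, read from the number `c` -/
def rwsR (e D W n c : Nat) : Nat :=
  Nat.rec (motive := fun _ => Nat → Nat) (fun _ => 0)
    (fun _ ih x => Nat.lor (sprR e D (Nat.mod x D) (Nat.shiftRight x e))
      (Nat.shiftLeft (ih (Nat.shiftRight x (Nat.mul e (Nat.succ (Nat.mod x D))))) W)) n c

/-- the bit `n` of `m` -/
def tb (m n : Nat) : Bool := Nat.beq (Nat.land 1 (Nat.shiftRight m n)) 1

/-- the row `a` -/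
def rwF (W Wm M a : Nat) : Nat := Nat.land (Nat.shiftRight M (Nat.mul a W)) Wm

/-- the first `n` rows, with a new width -/
def cvR (W Wm W' M n : Nat) : Nat :=
  Nat.rec (motive := fun _ => Nat) 0 (fun k ih => Nat.lor (Nat.shiftLeft (rwF W Wm M k) (Nat.mul k W')) ih) n

/-- the row of the middle -/
def midF (W Wm M s t : Nat) : Nat :=
  Nat.lor (Nat.land (rwF W Wm M s) (rwF W Wm M t)) (Nat.lor (Nat.pow 2 s) (Nat.pow 2 t))

/-- the bits of an edge -/
def ebF (W s t : Nat) : Nat := Nat.lor (Nat.pow 2 (Nat.add (Nat.mul s W) t)) (Nat.pow 2 (Nat.add (Nat.mul t W) s))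

/-- the row and the column `z` -/
def crF (W O K z R : Nat) : Nat :=
  Nat.lor (Nat.shiftLeft R (Nat.mul z W)) (Nat.shiftLeft (Nat.land (Nat.mul R O) K) z)

/-- the end of the list -/
def finF (A' M' A M : Nat) : Bool := and (Nat.beq A A') (Nat.beq M M')

/-- one move of the checker -/
def stF (W V Wm O K k s t z : Nat) (A M : Nat) (ih : Nat → Nat → Bool) : Bool :=
  Nat.rec (motive := fun _ => Bool)
    (and (tb A s) (and (tb A t) (and (tb A z) (and (Nat.ble (Nat.succ z) V) (and (Nat.ble (Nat.succ s) V)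
      (and (Nat.ble (Nat.succ t) V) (and (not (Nat.beq s t)) (and (not (Nat.beq s z)) (and (not (Nat.beq t z))
      (and (not (tb (rwF W Wm M s) t)) (and (Nat.beq (rwF W Wm M z) (Nat.xor (midF W Wm M s t) (Nat.pow 2 z)))
      (ih (Nat.xor A (Nat.pow 2 z)) (Nat.lor (Nat.xor M (crF W O K z (rwF W Wm M z))) (ebF W s t))))))))))))))
    (fun _ _ => and (tb (rwF W Wm M s) t) (and (not (tb A z)) (and (Nat.ble (Nat.succ z) V)
      (and (Nat.ble (Nat.succ s) V) (and (Nat.ble (Nat.succ t) V)
      (ih (Nat.lor A (Nat.pow 2 z)) (Nat.lor (Nat.xor M (ebF W s t)) (crF W O K z (midF W Wm M s t)))))))))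
    k

/-- the checker: `n` moves are read from the number `c`; every move is written with `4 * e` bits -/
def goF (W V Wm O K A' M' e f g h D n : Nat) : Nat → Nat → Nat → Bool :=
  Nat.rec (motive := fun _ => Nat → Nat → Nat → Bool) (fun _ A M => finF A' M' A M)
    (fun _ ih c A M => stF W V Wm O K (Nat.mod c D) (Nat.mod (Nat.shiftRight c e) D)
      (Nat.mod (Nat.shiftRight c f) D) (Nat.mod (Nat.shiftRight c g) D) A M
      (ih (Nat.shiftRight c h))) n

end Pool.Agent.H77.SP
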