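import Pool.Agent.H77.SP.Pack
import Pool.Agent.H77.SP.Raw

/-!
# A quick form of the checker
-/

set_option autoImplicit false

namespace Pool.Agent.H77.SP

theorem tb_eq (m n : ℕ) : tb m n = m.testBit n := by
  unfold tb
  have h : Nat.land 1 (Nat.shiftRight m n) = (m >>> n) % 2 := Nat.one_and_eq_mod_two (m >>> n)
  rw [h, Nat.testBit_eq_decide_div_mod_eq, Nat.shiftRight_eq_div_pow]
  cases h1 : Nat.beq (m / 2 ^ n % 2) 1 with
  | true => rw [Nat.eq_of_beq_eq_true h1]; rfl
  | false =>
    have h2 : ¬ m / 2 ^ n % 2 = 1 := fun e => by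
      rw [e] at h1
      exact absurd h1 (by decide)
    rw [decide_eq_false h2]

theorem stF_step {W O K k s t z A M : ℕ} {ih : ℕ → ℕ → Bool} (l : List Mv) {q : Option (ℕ × ℕ)}
    (hi : ∀ A M, ih A M = true → run W O K l A M = q)
    (h : stF W (W - 1) (2 ^ W - 1) O K k s t z A M ih = true) :
    run W O K (⟨!(Nat.beq k 0), s, t, z⟩ :: l) A M = q := by
  have hr : ∀ a b, b < W → tb (rwF W (2 ^ W - 1) M a) b = M.testBit (a * W + b) := by
    intro a b hb
    rw [tb_eq]
    show (row W M a).testBit b = _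
    rw [testBit_row, decide_eq_true hb, Bool.true_and]
  cases k with
  | succ k =>
    have h : and (tb (rwF W (2 ^ W - 1) M s) t) (and (not (tb A z)) (and (Nat.blt z (W - 1))
      (and (Nat.blt s (W - 1)) (and (Nat.blt t (W - 1)) (ih (A ||| 2 ^ z)
        ((M ^^^ eb W s t) ||| cross W O K z (mid W M s t))))))) = true := h
    simp only [Bool.and_eq_true] at h
    obtain ⟨h1, h2, h3, h4, h5, h6⟩ := h
    have ht : t < W := by
      have := Nat.le_of_ble_eq_true (show Nat.ble (t + 1) (W - 1) = true from h5)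
      omega
    rw [hr s t ht] at h1
    rw [tb_eq] at h2
    show (match step W O K ⟨true, s, t, z⟩ A M with
      | none => none
      | some (A', M') => run W O K l A' M') = _
    have h7 : step W O K ⟨true, s, t, z⟩ A M = some (A ||| 2 ^ z,
        (M ^^^ eb W s t) ||| cross W O K z (mid W M s t)) := by
      show (bif M.testBit (s * W + t) && !(A.testBit z) && Nat.blt z (W - 1) && Nat.blt s (W - 1) &&
        Nat.blt t (W - 1) then some (A ||| 2 ^ z, (M ^^^ eb W s t) ||| cross W O K z (mid W M s t))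
        else none) = _
      rw [h1, h2, h3, h4, h5]
      rfl
    rw [h7]
    exact hi _ _ h6
  | zero =>
    have h : and (tb A s) (and (tb A t) (and (tb A z) (and (Nat.blt z (W - 1)) (and (Nat.blt s (W - 1))
      (and (Nat.blt t (W - 1)) (and (not (Nat.beq s t)) (and (not (Nat.beq s z)) (and (not (Nat.beq t z))
      (and (not (tb (rwF W (2 ^ W - 1) M s) t)) (and (Nat.beq (row W M z) (mid W M s t ^^^ 2 ^ z))
      (ih (A ^^^ 2 ^ z) ((M ^^^ cross W O K z (row W M z)) ||| eb W s t)))))))))))) = true := h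
    simp only [Bool.and_eq_true] at h
    obtain ⟨h1, h2, h3, h4, h5, h6, h7, h8, h9, h10, h11, h12⟩ := h
    have ht : t < W := by
      have := Nat.le_of_ble_eq_true (show Nat.ble (t + 1) (W - 1) = true from h6)
      omega
    rw [hr s t ht] at h10
    rw [tb_eq] at h1 h2 h3
    show (match step W O K ⟨false, s, t, z⟩ A M with
      | none => none
      | some (A', M') => run W O K l A' M') = _
    have h13 : step W O K ⟨false, s, t, z⟩ A M = some (A ^^^ 2 ^ z,
        (M ^^^ cross W O K z (row W M z)) ||| eb W s t) := by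
      show (bif A.testBit s && A.testBit t && A.testBit z && Nat.blt z (W - 1) && Nat.blt s (W - 1) &&
        Nat.blt t (W - 1) && !(Nat.beq s t) && !(Nat.beq s z) && !(Nat.beq t z) &&
        !(M.testBit (s * W + t)) && Nat.beq (row W M z) (mid W M s t ^^^ 2 ^ z) then
        some (A ^^^ 2 ^ z, (M ^^^ cross W O K z (row W M z)) ||| eb W s t) else none) = _
      rw [h1, h2, h3, h4, h5, h6, h7, h8, h9, h10, h11]
      rfl
    rw [h13]
    exact hi _ _ h12

theorem goF_run {W O K A' M' e f g h D : ℕ} (n : ℕ) : ∀ c, ∃ l : List Mv, ∀ A M,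
    goF W (W - 1) (2 ^ W - 1) O K A' M' e f g h D n c A M = true → run W O K l A M = some (A', M') := by
  induction n with
  | zero =>
    intro c
    refine ⟨[], fun A M hh => ?_⟩
    have hh : and (Nat.beq A A') (Nat.beq M M') = true := hh
    rw [Bool.and_eq_true] at hh
    rw [Nat.eq_of_beq_eq_true hh.1, Nat.eq_of_beq_eq_true hh.2]
    rfl
  | succ n ih =>
    intro c
    obtain ⟨l, hl⟩ := ih (Nat.shiftRight c h)
    exact ⟨_, fun A M hh => stF_step l hl hh⟩

theorem goF_inv {d W V Wm O K e f g h D n c : ℕ} (ho : OK W O K) {A M A' M' : ℕ} (hI : Inv d W A M)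
    (hV : V = W - 1) (hm : Wm = 2 ^ W - 1)
    (hb : goF W V Wm O K A' M' e f g h D n c A M = true) : Inv d W A' M' := by
  subst hV
  subst hm
  obtain ⟨l, hl⟩ := goF_run (W := W) (O := O) (K := K) (A' := A') (M' := M') (e := e) (f := f) (g := g) (h := h)
    (D := D) n c
  exact run_inv ho l hI (hl A M hb)

end Pool.Agent.H77.SP
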