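import Pool.Agent.H77.SP.Wid

/-!
# The constants of the checker as quotients
-/

set_option autoImplicit false

namespace Pool.Agent.H77.SP

theorem ones_mul (B : ℕ) (hB : 1 ≤ B) : ∀ k, ones B k * (B - 1) + 1 = B ^ k := by
  intro k
  induction k with
  | zero => show 0 * (B - 1) + 1 = B ^ 0; simp
  | succ k ih =>
    show (ones B k * B + 1) * (B - 1) + 1 = _
    obtain ⟨b, rfl⟩ : ∃ b, B = b + 1 := ⟨B - 1, by omega⟩
    rw [Nat.add_sub_cancel] at ih ⊢
    rw [pow_succ, ← ih]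
    ring

theorem ones_eq (B : ℕ) (hB : 2 ≤ B) (k : ℕ) : (B ^ k - 1) / (B - 1) = ones B k := by
  rw [← ones_mul B (by omega) k, Nat.add_sub_cancel]
  exact Nat.mul_div_cancel _ (by omega)

theorem ones_succ' (B : ℕ) (k : ℕ) : ones B (k + 1) = ones B k + B ^ k := by
  induction k with
  | zero => show 0 * B + 1 = 0 + B ^ 0; simp
  | succ k ih =>
    show ones B (k + 1) * B + 1 = (ones B k * B + 1) + B ^ (k + 1)
    rw [ih]
    ring

theorem msk_eq (W : ℕ) (hW : 1 ≤ W) (k : ℕ) : msk W k = ones (2 ^ W) k ∧ ones (2 ^ W) k < 2 ^ (k * W) := by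
  induction k with
  | zero => exact ⟨rfl, by show 0 < 2 ^ (0 * W); positivity⟩
  | succ k ih =>
    obtain ⟨h1, h2⟩ := ih
    constructor
    · show msk W k ||| 2 ^ (k * W) = _
      rw [h1, ones_succ', Nat.lor_comm, ← pow_mul, Nat.mul_comm W k]
      have := Nat.two_pow_add_eq_or_of_lt h2 1
      rw [Nat.mul_one] at this
      rw [← this, Nat.add_comm]
    · rw [ones_succ', ← pow_mul, Nat.mul_comm W k]
      have e : 2 ^ ((k + 1) * W) = 2 ^ (k * W) * 2 ^ W := by rw [← pow_add]; congr 1; ring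
      have h3 : 2 ≤ 2 ^ W := by
        calc 2 = 2 ^ 1 := rfl
          _ ≤ 2 ^ W := Nat.pow_le_pow_right (by norm_num) hW
      rw [e]
      nlinarith [Nat.zero_le (2 ^ (k * W))]

theorem OK_geo (W a b c : ℕ) (hW : 2 ≤ W) (ha : a = (W - 1) * W) (hb : b = W * W) (hc : c = W - 1) :
    OK W ((2 ^ a - 1) / (2 ^ c - 1)) ((2 ^ b - 1) / (2 ^ W - 1)) := by
  have h2 : 2 ≤ 2 ^ (W - 1) := by
    calc 2 = 2 ^ 1 := rfl
      _ ≤ 2 ^ (W - 1) := Nat.pow_le_pow_right (by norm_num) (by omega)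
  have h3 : 2 ≤ 2 ^ W := by
    calc 2 = 2 ^ 1 := rfl
      _ ≤ 2 ^ W := Nat.pow_le_pow_right (by norm_num) (by omega)
  refine ⟨hW, ?_, ?_⟩
  · rw [ha, hc, pow_mul]
    exact ones_eq _ h2 _
  · rw [hb, pow_mul, (msk_eq W (by omega) W).1]
    exact ones_eq _ h3 _

/-- the constants, with equations which are checked by evaluation -/
theorem OK_geo' (W a b c : ℕ) {O K : ℕ} (hW : 2 ≤ W) (ha : a = (W - 1) * W) (hb : b = W * W) (hc : c = W - 1)
    (hO : O = (2 ^ a - 1) / (2 ^ c - 1)) (hK : K = (2 ^ b - 1) / (2 ^ W - 1)) : OK W O K := by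
  rw [hO, hK]
  exact OK_geo W a b c hW ha hb hc

end Pool.Agent.H77.SP
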