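import Pool.Agent.H77.SP.Dbl
import Pool.Graph.R_pool_sql_team_seeded_63374d34.Results.MP_98dedd_gt.TorsionOfFlagSpheres

/-!
# The conclusion from the data
-/

set_option autoImplicit false

namespace Pool.Agent.H77.SP

open Filter Topology Pool.Agent.N496.LT.Lt

/-- the data in the form which the theorem of the library needs -/
theorem glue0 {d n N W M : ℕ} (hN : N ≤ W) (hI : Inv d W (2 ^ N - 1) M) {l lf : List (ℕ × ℕ)} {U : ℕ}
    {col : List ℕ} (h : dchk d n N W M l lf U col = true) :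
    ∃ (N : ℕ) (H : SimpleGraph (Fin N)) (_ : Stel d H) (Z : Dbl (ZMod 3) H d) (κ : Fin Z.n → Fin (d + 1)),
      Z.U.card = cnt U n ∧ ∀ v w a b, H.Adj (Z.j v a) (Z.j w b) → κ v ≠ κ w := by
  obtain ⟨Z, κ, hU, hκ⟩ := dchk_sound h
  exact ⟨N, gph W M N, Inv_end hN hI, Z, κ, hU, hκ⟩

/-- the conclusion -/
theorem glue1 {d u : ℕ} (hd : 1 ≤ d) (h : ∃ (N : ℕ) (H : SimpleGraph (Fin N)) (_ : Stel d H) (Z : Dbl (ZMod 3) H d)
      (κ : Fin Z.n → Fin (d + 1)), Z.U.card = u ∧ ∀ v w a b, H.Adj (Z.j v a) (Z.j w b) → κ v ≠ κ w) :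
    ∃ (n : ℕ) (S : SimpleGraph (Fin n)), Stel d S ∧ Sph d S ∧ ResFin (Gam S) ∧ (davis S).toFree.DetL2Acyclic ∧
    (davis S).cube.toFree.DetL2Acyclic ∧ (davis S).cube.toFree.l2torsion = 0 ∧
    ∀ (K : ℕ → Subgroup (Gam S)) [∀ i, (K i).Normal], (∀ i, (K i).FiniteIndex) → Antitone K → ⨅ i, K i = ⊥ →
      (∀ c : ℝ, 0 < c → c < 2 ^ n / 2 ^ u → ∀ᶠ i in atTop, c ^ 3 * Real.log (3 : ℕ) ≤
        (davis S).rate3 (K i) (3 * d + 1)) ∧
      ¬ Tendsto (fun i => (-1) ^ (3 * d + 1) * (davis S).rate3 (K i) (3 * d + 1)) atTop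
        (𝓝 (davis S).cube.toFree.l2torsion) := by
  obtain ⟨N, H, hH, Z, κ, hU, hκ⟩ := h
  haveI : Fact (Nat.Prime 3) := ⟨Nat.prime_three⟩
  obtain ⟨n, S, h1, h2, h3, h4, h5, h6, h7⟩ := Pool.Agent.Results.MP_98dedd_gt.TorsionOfFlagSpheres.result d N hd
    H hH.sph 3 (by norm_num) Z κ hκ
  rw [hU] at h7
  exact ⟨n, S, Stel.of_Sub h1 hH, h2, h3, h4, h5, h6, h7⟩

end Pool.Agent.H77.SP
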