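import Pool.Graph.R_pool_sql_team_seeded_63374d34.N496.LT.L1
import Pool.Graph.R_pool_sql_team_seeded_63374d34.N496.LT.E1
import Pool.Graph.R_pool_sql_team_seeded_63374d34.N496.LT.E2
import Pool.Graph.R_seed8.W460.SG.ORD

/-!
# Graph isomorphisms preserve `Sph`
-/

set_option autoImplicit false

noncomputable section

namespace Pool.Agent.H77.SP

open Module Pool.Agent.W907.SG Pool.Agent.N496.LT.E1P
open Pool.Agent.W907.SM (lk)
open Pool.Agent.TH652.Above (HSph)
open Pool.Agent.W460.SG (gg gg_sq gg_ne sg_map)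

section iso

variable {V U : Type} [Fintype V] [LinearOrder V] [Fintype U] [LinearOrder U]

/-- the relabelling of chains, with signs -/
def Phi (e : V ≃ U) : (Finset U → ℝ) ≃ₗ[ℝ] (Finset V → ℝ) where
  toFun c T := gg e T * c (T.map e.toEmbedding)
  map_add' c d := by
    funext T
    show gg e T * (c + d) _ = gg e T * c _ + gg e T * d _
    rw [Pi.add_apply]
    ring
  map_smul' a c := by
    funext T
    show gg e T * (a • c) _ = a • (gg e T * c _)
    rw [Pi.smul_apply, smul_eq_mul, smul_eq_mul]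
    ring
  invFun d T := gg e (T.map e.symm.toEmbedding) * d (T.map e.symm.toEmbedding)
  left_inv c := by
    funext T
    show gg e (T.map e.symm.toEmbedding) * (gg e (T.map e.symm.toEmbedding) *
      c ((T.map e.symm.toEmbedding).map e.toEmbedding)) = c T
    rw [← mul_assoc, gg_sq, one_mul, Finset.map_map]
    congr 1
    ext x
    simp
  right_inv d := by
    funext T
    show gg e T * (gg e ((T.map e.toEmbedding).map e.symm.toEmbedding) *
      d ((T.map e.toEmbedding).map e.symm.toEmbedding)) = d T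
    have h : (T.map e.toEmbedding).map e.symm.toEmbedding = T := by
      rw [Finset.map_map]
      ext x
      simp
    rw [h, ← mul_assoc, gg_sq, one_mul]

theorem Phi_apply (e : V ≃ U) (c : Finset U → ℝ) (T : Finset V) :
    Phi e c T = gg e T * c (T.map e.toEmbedding) := rfl

theorem Phi_bd (e : V ≃ U) (c : Finset U → ℝ) : bd ℝ (Phi e c) = Phi e (bd ℝ c) := by
  funext T
  rw [bd_apply, Phi_apply, bd_apply, Finset.mul_sum]
  have h1 : ∑ u ∈ (T.map e.toEmbedding)ᶜ, gg e T * sg u (T.map e.toEmbedding) • c (insert u (T.map e.toEmbedding)) =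
      ∑ v ∈ Tᶜ, gg e T * sg (e v) (T.map e.toEmbedding) • c (insert (e v) (T.map e.toEmbedding)) := by
    have h0 : (T.map e.toEmbedding)ᶜ = (Tᶜ).map e.toEmbedding := by
      ext u
      rw [Finset.mem_compl, Finset.mem_map, Finset.mem_map]
      constructor
      · intro h
        exact ⟨e.symm u, Finset.mem_compl.2 fun h2 => h ⟨_, h2, by simp⟩, by simp⟩
      · rintro ⟨a, ha, rfl⟩ ⟨b, hb, h2⟩
        have : b = a := e.injective h2
        exact (Finset.mem_compl.1 ha) (this ▸ hb)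
    rw [h0, Finset.sum_map]
    rfl
  rw [h1]
  refine Finset.sum_congr rfl fun v hv => ?_
  have hv' : v ∉ T := Finset.mem_compl.1 hv
  rw [Phi_apply, Finset.map_insert]
  have h2 := sg_map e v T hv'
  have h3 : (sg v T • (gg e (insert v T) * c (insert (e.toEmbedding v) (T.map e.toEmbedding))) : ℝ) =
      ((sg v T : ℝ) * gg e (insert v T)) * c (insert (e v) (T.map e.toEmbedding)) := by
    rw [zsmul_eq_mul, mul_assoc]
    rfl
  rw [h3, h2, zsmul_eq_mul, mul_assoc]

theorem Phi_KK (e : V ≃ U) {G : SimpleGraph V} {H : SimpleGraph U} (h : ∀ a b, G.Adj a b ↔ H.Adj (e a) (e b))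
    (A : Set U) (i : ℕ) (c : Finset U → ℝ) :
    Phi e c ∈ KK G (fun _ => (- LinearMap.id : ℝ →ₗ[ℝ] ℝ)) (e ⁻¹' A) ∅ i ↔
      c ∈ KK H (fun _ => (- LinearMap.id : ℝ →ₗ[ℝ] ℝ)) A ∅ i := by
  have hT : ∀ T : Finset V, (H.IsClique ((T.map e.toEmbedding : Finset U) : Set U) ∧
      ((T.map e.toEmbedding : Finset U) : Set U) ⊆ A ∧ (T.map e.toEmbedding).card = i) ↔
      (G.IsClique (T : Set V) ∧ (T : Set V) ⊆ e ⁻¹' A ∧ T.card = i) := by
    intro T
    rw [Finset.card_map]
    refine and_congr ?_ (and_congr_left fun _ => ?_)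
    · constructor
      · intro h1 a ha b hb hab
        rw [h]
        exact h1 (by simpa using ha) (by simpa using hb) (fun h' => hab (e.injective h'))
      · intro h1 x hx y hy hxy
        rw [Finset.coe_map] at hx hy
        obtain ⟨a, ha, rfl⟩ := hx
        obtain ⟨b, hb, rfl⟩ := hy
        exact (h a b).1 (h1 ha hb (fun h' => hxy (by rw [h'])))
    · constructor
      · intro h1 a ha
        exact h1 (by simpa using ha)
      · intro h1 x hx
        rw [Finset.coe_map] at hx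
        obtain ⟨a, ha, rfl⟩ := hx
        exact h1 ha
  rw [mem_KK, mem_KK]
  refine and_congr ?_ ⟨fun _ T t _ => rfl, fun _ T t _ => rfl⟩
  constructor
  · intro h1 T hT'
    obtain ⟨T', rfl⟩ : ∃ T' : Finset V, T = T'.map e.toEmbedding :=
      ⟨T.map e.symm.toEmbedding, by rw [Finset.map_map]; ext x; simp⟩
    have h2 := h1 T' (by rw [← hT]; exact hT')
    rw [Phi_apply] at h2
    exact (mul_eq_zero.1 h2).resolve_left (gg_ne e T')
  · intro h1 T hT'
    rw [Phi_apply, h1 _ (by rw [hT]; exact hT'), mul_zero]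

/-- the Betti numbers of isomorphic graphs -/
theorem bb_iso (e : V ≃ U) {G : SimpleGraph V} {H : SimpleGraph U} (h : ∀ a b, G.Adj a b ↔ H.Adj (e a) (e b))
    (A : Set U) (i : ℕ) : bb G (e ⁻¹' A) i = bb H A i := by
  have hZ : ZZ G (fun _ => (- LinearMap.id : ℝ →ₗ[ℝ] ℝ)) (e ⁻¹' A) ∅ i =
      (ZZ H (fun _ => (- LinearMap.id : ℝ →ₗ[ℝ] ℝ)) A ∅ i).map (Phi e).toLinearMap := by
    ext c
    obtain ⟨d, rfl⟩ := (Phi e).surjective c
    constructor
    · rintro ⟨h1, h2⟩
      refine ⟨d, ⟨(Phi_KK e h A i d).1 h1, ?_⟩, rfl⟩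
      rw [SetLike.mem_coe, LinearMap.mem_ker] at h2 ⊢
      rw [Phi_bd] at h2
      exact (Phi e).injective (by rw [h2, map_zero])
    · rintro ⟨d', ⟨h1, h2⟩, h3⟩
      have h4 : d' = d := (Phi e).injective h3
      subst h4
      refine ⟨(Phi_KK e h A i d').2 h1, ?_⟩
      rw [SetLike.mem_coe, LinearMap.mem_ker] at h2 ⊢
      rw [Phi_bd, h2, map_zero]
  have hB : BB G (fun _ => (- LinearMap.id : ℝ →ₗ[ℝ] ℝ)) (e ⁻¹' A) ∅ i =
      (BB H (fun _ => (- LinearMap.id : ℝ →ₗ[ℝ] ℝ)) A ∅ i).map (Phi e).toLinearMap := by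
    ext c
    constructor
    · rintro ⟨c', h1, rfl⟩
      obtain ⟨d, rfl⟩ := (Phi e).surjective c'
      exact ⟨bd ℝ d, ⟨d, (Phi_KK e h A (i + 1) d).1 h1, rfl⟩, (Phi_bd e d).symm⟩
    · rintro ⟨_, ⟨d, h1, rfl⟩, rfl⟩
      exact ⟨Phi e d, (Phi_KK e h A (i + 1) d).2 h1, Phi_bd e d⟩
  unfold bb beta
  rw [hZ, hB, LinearEquiv.finrank_map_eq, LinearEquiv.finrank_map_eq]

theorem lk_iso (e : V ≃ U) {G : SimpleGraph V} {H : SimpleGraph U} (h : ∀ a b, G.Adj a b ↔ H.Adj (e a) (e b))
    (S : Finset V) : lk G S = e ⁻¹' lk H (S.map e.toEmbedding) := by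
  ext a
  constructor
  · intro h1 u hu
    obtain ⟨b, hb, rfl⟩ := Finset.mem_map.1 hu
    exact (h a b).1 (h1 b hb)
  · intro h1 b hb
    exact (h a b).2 (h1 _ (Finset.mem_map_of_mem _ hb))

theorem HSph_iso (e : V ≃ U) {G : SimpleGraph V} {H : SimpleGraph U} (h : ∀ a b, G.Adj a b ↔ H.Adj (e a) (e b))
    {k : ℕ} (hH : HSph k H) : HSph k G := by
  intro S hS i
  show bb G (lk G S) i = _
  rw [lk_iso e h, bb_iso e h]
  have hc : H.IsClique ((S.map e.toEmbedding : Finset U) : Set U) := by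
    intro x hx y hy hxy
    rw [Finset.coe_map] at hx hy
    obtain ⟨a, ha, rfl⟩ := hx
    obtain ⟨b, hb, rfl⟩ := hy
    exact (h a b).1 (hS ha hb (fun h' => hxy (by rw [h'])))
  have := hH _ hc i
  rw [Finset.card_map] at this
  exact this

end iso

open Pool.Agent.N496.LT.Lt (Sph Rea)

theorem Sph_iso {d n m : ℕ} {G : SimpleGraph (Fin n)} {H : SimpleGraph (Fin m)} (e : Fin n ≃ Fin m)
    (h : ∀ a b, G.Adj a b ↔ H.Adj (e a) (e b)) (hH : Sph d H) : Sph d G := by
  refine ⟨HSph_iso e h hH.hom, ?_⟩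
  obtain ⟨f, h1, h2, h3⟩ := hH.emb
  have key : ∀ x ∈ Rea G, (fun u => x (e.symm u)) ∈ Rea H := by
    rintro x ⟨a1, a2, a3⟩
    refine ⟨fun v => a1 _, ?_, ?_⟩
    · rw [finsum_eq_sum_of_fintype] at a2 ⊢
      rw [← a2]
      exact Equiv.sum_comp e.symm x
    · intro u hu v hv huv
      have := a3 hu hv (fun h' => huv (e.symm.injective h'))
      rw [h] at this
      simpa using this
  refine ⟨fun x => f fun u => x (e.symm u), ?_, ?_, ?_⟩
  · refine h1.comp ?_ key
    exact (continuous_pi fun u => continuous_apply _).continuousOn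
  · intro x hx
    exact h2 _ (key x hx)
  · intro x hx y hy hxy
    have := h3 (key x hx) (key y hy) hxy
    funext v
    have h4 := congrFun this (e v)
    simpa using h4

end Pool.Agent.H77.SP
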