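import Pool.Agent.H77.SP.Dbl

/-!
# Long numbers from their rows
-/

set_option autoImplicit false

namespace Pool.Agent.H77.SP

/-- the number with the digits `l` in base `2 ^ w` (the first digit is the lowest one) -/
def pack (w : ℕ) : List ℕ → ℕ
  | [] => 0
  | r :: l => r + pack w l * 2 ^ w

/-- a run from the packed number -/
def blk2 (W O K : ℕ) (l : List Mv) (A w : ℕ) (r : List (List ℕ)) (A' : ℕ) (r' : List (List ℕ)) : Bool :=
  blk W O K l A (pack (32 * w) (r.map (pack w))) A' (pack (32 * w) (r'.map (pack w)))

end Pool.Agent.H77.SP
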