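import Pool.Agent.H77.SP.Chk

/-!
# The start and the end of the computation
-/

set_option autoImplicit false

namespace Pool.Agent.H77.SP


/-- the number with the bits in the list -/
def lorL : List ℕ → ℕ
  | [] => 0
  | q :: l => 2 ^ q ||| lorL l

theorem testBit_lorL (l : List ℕ) (q : ℕ) : (lorL l).testBit q = true ↔ q ∈ l := by
  induction l with
  | nil =>
    show (0 : ℕ).testBit q = true ↔ _
    rw [Nat.zero_testBit]
    simp
  | cons a l ih =>
    show (2 ^ a ||| lorL l).testBit q = true ↔ _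
    rw [Nat.testBit_lor, Bool.or_eq_true, ih, Nat.testBit_two_pow, decide_eq_true_eq, List.mem_cons, eq_comm]

/-- the bits of the cross polytope with the labels `l` -/
def prs (W : ℕ) (l : List ℕ) : List ℕ :=
  (List.range l.length).flatMap fun i => ((List.range l.length).filter fun j => !(Nat.beq (i / 2) (j / 2))).map
    fun j => l.getD i 0 * W + l.getD j 0

theorem mem_prs {W : ℕ} {l : List ℕ} (q : ℕ) : q ∈ prs W l ↔
    ∃ i < l.length, ∃ j < l.length, i / 2 ≠ j / 2 ∧ q = l.getD i 0 * W + l.getD j 0 := by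
  unfold prs
  rw [List.mem_flatMap]
  constructor
  · rintro ⟨i, hi, h⟩
    rw [List.mem_map] at h
    obtain ⟨j, hj, h⟩ := h
    rw [List.mem_filter] at hj
    refine ⟨i, List.mem_range.1 hi, j, List.mem_range.1 hj.1, fun e => ?_, h.symm⟩
    have := hj.2
    rw [e, Nat.beq_refl] at this
    exact absurd this (by decide)
  · rintro ⟨i, hi, j, hj, h, rfl⟩
    refine ⟨i, List.mem_range.2 hi, ?_⟩
    rw [List.mem_map]
    refine ⟨j, List.mem_filter.2 ⟨List.mem_range.2 hj, ?_⟩, rfl⟩
    cases h1 : Nat.beq (i / 2) (j / 2) with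
    | true => exact absurd (Nat.eq_of_beq_eq_true h1) h
    | false => rfl

theorem getD_inj {l : List ℕ} (hn : l.Nodup) {i j : ℕ} (hi : i < l.length) (hj : j < l.length)
    (h : l.getD i 0 = l.getD j 0) : i = j := by
  rw [List.getD_eq_getElem _ _ hi, List.getD_eq_getElem _ _ hj] at h
  exact (List.Nodup.getElem_inj_iff hn).1 h

theorem Inv_base {d W : ℕ} (hW : 2 ≤ W) (l : List ℕ) (hl : l.length = 2 * (2 * d + 1)) (hn : l.Nodup)
    (hlt : ∀ a ∈ l, a < W - 1) : Inv d W (lorL l) (lorL (prs W l)) := by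
  have hgl : ∀ i < l.length, l.getD i 0 < W := by
    intro i hi
    have := hlt (l.getD i 0) (by rw [List.getD_eq_getElem _ _ hi]; exact List.getElem_mem hi)
    omega
  obtain ⟨G, hG⟩ : ∃ G : SimpleGraph ℕ, ∀ a b, G.Adj a b ↔ ∃ i < l.length, ∃ j < l.length, i / 2 ≠ j / 2 ∧
      a = l.getD i 0 ∧ b = l.getD j 0 := by
    refine ⟨{ Adj := fun a b => ∃ i < l.length, ∃ j < l.length, i / 2 ≠ j / 2 ∧
      a = l.getD i 0 ∧ b = l.getD j 0, symm := ⟨?_⟩, loopless := ⟨?_⟩ }, fun a b => Iff.rfl⟩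
    · rintro a b ⟨i, hi, j, hj, h, h1, h2⟩
      exact ⟨j, hj, i, hi, h.symm, h2, h1⟩
    · rintro a ⟨i, hi, j, hj, h, h1, h2⟩
      apply h
      rw [getD_inj hn hi hj (h1.symm.trans h2)]
  refine ⟨G, ?_, ?_, ?_, ?_⟩
  · intro a ha b hb
    rw [testBit_lorL, mem_prs, hG]
    constructor
    · rintro ⟨i, hi, j, hj, h, h1⟩
      obtain ⟨h2, h3⟩ := (idx_inj hb (hgl j hj)).1 h1
      exact ⟨i, hi, j, hj, h, h2, h3⟩
    · rintro ⟨i, hi, j, hj, h, h1, h2⟩
      exact ⟨i, hi, j, hj, h, by rw [h1, h2]⟩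
  · intro a b h
    rw [hG] at h
    obtain ⟨i, hi, j, hj, h, h1, h2⟩ := h
    rw [testBit_lorL, h1, List.getD_eq_getElem _ _ hi]
    exact List.getElem_mem hi
  · intro a ha
    exact hlt a ((testBit_lorL l a).1 ha)
  · have hr : {a | (lorL l).testBit a = true} =
        Set.range (fun i : Fin (2 * (2 * d + 1)) => l.getD i.1 0) := by
      ext a
      show (lorL l).testBit a = true ↔ _
      rw [testBit_lorL, List.mem_iff_getElem]
      constructor
      · rintro ⟨i, hi, h⟩
        exact ⟨⟨i, by omega⟩, by show l.getD i 0 = a; rw [List.getD_eq_getElem _ _ hi, h]⟩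
      · rintro ⟨i, h⟩
        have hi : i.1 < l.length := by omega
        exact ⟨i.1, hi, by rw [← h]; show _ = l.getD i.1 0; rw [List.getD_eq_getElem _ _ hi]⟩
    rw [hr]
    refine SphN_base _ ?_ ?_
    · intro i j h
      exact Fin.ext (getD_inj hn (by omega) (by omega) h)
    · intro i j
      rw [hG]
      constructor
      · rintro ⟨i', hi', j', hj', h, h1, h2⟩
        rw [getD_inj hn (show i.1 < l.length by omega) hi' h1, getD_inj hn (show j.1 < l.length by omega) hj' h2]
        exact h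
      · intro h
        exact ⟨i.1, by omega, j.1, by omega, h, rfl, rfl⟩

/-- the graph of the matrix -/
def gph (W M N : ℕ) : SimpleGraph (Fin N) where
  Adj a b := a ≠ b ∧ (M.testBit (a.1 * W + b.1) || M.testBit (b.1 * W + a.1)) = true
  symm := ⟨fun _ _ h => ⟨h.1.symm, by rw [Bool.or_comm]; exact h.2⟩⟩
  loopless := ⟨fun _ h => h.1 rfl⟩

theorem Inv_end {d W N M : ℕ} (hN : N ≤ W) (h : Inv d W (2 ^ N - 1) M) : Stel d (gph W M N) := by
  obtain ⟨G, g1, g2, g3, g4⟩ := h
  have hs : {a | (2 ^ N - 1).testBit a = true} = {x | x < N} := by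
    ext a
    show (2 ^ N - 1).testBit a = true ↔ a < N
    rw [Nat.testBit_two_pow_sub_one, decide_eq_true_eq]
  rw [hs] at g4
  have e : gph W M N = G.comap (fun i : Fin N => i.1) := by
    ext a b
    show (a ≠ b ∧ (M.testBit (a.1 * W + b.1) || M.testBit (b.1 * W + a.1)) = true) ↔ G.Adj a.1 b.1
    rw [Bool.or_eq_true, g1 a.1 (by omega) b.1 (by omega), g1 b.1 (by omega) a.1 (by omega)]
    constructor
    · rintro ⟨-, h | h⟩
      · exact h
      · exact h.symm
    · intro h
      exact ⟨fun e => G.loopless.irrefl _ (e ▸ h), Or.inl h⟩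
  rw [e]
  exact SphN_fin g4

/-- checking the constants -/
theorem OK_of {W O K : ℕ} (h : (Nat.ble 2 W && Nat.beq O (ones (2 ^ (W - 1)) W) && Nat.beq K (msk W W)) = true) :
    OK W O K := by
  rw [Bool.and_eq_true, Bool.and_eq_true] at h
  exact ⟨Nat.le_of_ble_eq_true h.1.1, Nat.eq_of_beq_eq_true h.1.2, Nat.eq_of_beq_eq_true h.2⟩

/-- one block of moves, as a Boolean check -/
def blk (W O K : ℕ) (l : List Mv) (A M A' M' : ℕ) : Bool :=
  match run W O K l A M with
  | none => false
  | some (a, m) => Nat.beq a A' && Nat.beq m M'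

theorem blk_inv {d W O K : ℕ} (h : OK W O K) {l : List Mv} {A M A' M' : ℕ} (hI : Inv d W A M)
    (hb : blk W O K l A M A' M' = true) : Inv d W A' M' := by
  unfold blk at hb
  cases h1 : run W O K l A M with
  | none => rw [h1] at hb; exact absurd hb (by simp)
  | some p =>
    obtain ⟨a, m⟩ := p
    rw [h1] at hb
    have hb : (Nat.beq a A' && Nat.beq m M') = true := hb
    rw [Bool.and_eq_true] at hb
    rw [← Nat.eq_of_beq_eq_true hb.1, ← Nat.eq_of_beq_eq_true hb.2]
    exact run_inv h l hI h1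

end Pool.Agent.H77.SP
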