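import Pool.Agent.H77.SP.Base

/-!
# Flag complexes which are obtained from the cross polytope by edge subdivisions and inverse edge subdivisions
-/

set_option autoImplicit false

namespace Pool.Agent.H77.SP

open Pool.Agent.N496.LT.Lt (Sph)
open Pool.Agent.N496.LT

theorem Stel.sph {d n : ℕ} {G : SimpleGraph (Fin n)} (h : Stel d G) : Sph d G := by
  induction h with
  | base => exact Sph_cp d
  | iso e h _ ih => exact Sph_iso e h ih
  | sub h _ ih => exact Sph_sub h ih
  | weld h _ ih => exact Sph_weld h ih

theorem Stel.of_Sub {d m n : ℕ} {G : SimpleGraph (Fin m)} {S : SimpleGraph (Fin n)} (h : Lt.Sub G S) (hG : Stel d G) :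
    Stel d S := by
  induction h with
  | refl => exact hG
  | step H s t hst _ ih => exact Stel.sub hst ih

end Pool.Agent.H77.SP
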