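import Pool.Agent.H77.SP.Iso

/-!
# Inverse edge subdivisions preserve `Sph`
-/

set_option autoImplicit false

noncomputable section

namespace Pool.Agent.H77.SP

open Module Pool.Agent.W907.SG Pool.Agent.N496.LT Pool.Agent.N496.LT.E1P
open Pool.Agent.W907.SM (lk)
open Pool.Agent.TH652.Above (HSph)

section cases

variable {n k : ℕ} {G : SimpleGraph (Fin n)} {s t : Fin n} {S : Finset (Fin (n + 1))} (hst : G.Adj s t)
  (hS : (sd G s t).IsClique (S : Set (Fin (n + 1))))

include hst hS in
theorem eqA1 (hz : Fin.last n ∈ S) (hs : s ∈ pre S) (i : ℕ) :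
    bb (sd G s t) (lk (sd G s t) S) i = bb G (lk G (insert t (pre S))) i := by
  classical
  have hc := pre_clique hS
  have hnb := not_both hst hS
  have hM := mid_of_in hS hz
  have ht : t ∉ pre S := fun h => hnb ⟨hs, h⟩
  have hTc : G.IsClique ((insert t (pre S) : Finset (Fin n)) : Set (Fin n)) := by
    rw [Finset.coe_insert, SimpleGraph.isClique_insert]
    refine ⟨hc, fun b hb htb => ?_⟩
    rcases hM b hb with h | h | h
    · rw [h]
      exact hst.symm
    · exact absurd h.symm htb
    · exact h.2
  have hcard : (insert t (pre S)).card = S.card := by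
    rw [Finset.card_insert_of_notMem ht, card_in hz]
  have hlk : lk (sd G s t) S = Fin.castSucc '' lk G (insert t (pre S)) := by
    ext v
    induction v using Fin.lastCases with
    | last =>
      rw [lk_l]
      exact ⟨fun h => absurd hz h.1, fun h => absurd h (last_img _)⟩
    | cast a =>
      rw [lk_c, mem_img]
      constructor
      · rintro ⟨h1, h2⟩ u hu
        rcases Finset.mem_insert.1 hu with rfl | hu
        · rcases h2 hz with h | h | h
          · exact absurd (h1 s hs).1 (by rw [h]; exact G.loopless.irrefl _)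
          · exact absurd (by rw [h, Sym2.eq_swap]) (h1 s hs).2
          · exact h.2.symm
        · exact (h1 u hu).1
      · intro h
        have h1 : G.Adj a t := h t (Finset.mem_insert_self _ _)
        have h2 : G.Adj a s := h s (Finset.mem_insert_of_mem hs)
        refine ⟨fun u hu => ⟨h u (Finset.mem_insert_of_mem hu), fun h3 => ?_⟩, fun _ =>
          Or.inr (Or.inr ⟨h2.symm, h1.symm⟩)⟩
        rw [Sym2.eq_iff] at h3
        rcases h3 with ⟨h3, -⟩ | ⟨h3, -⟩
        · exact h2.ne h3
        · exact h1.ne h3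
  rw [hlk, bb_tr (H := G) Fin.castSucc mono_cs]
  · intro u hu u' hu'
    rw [sd_cc]
    have h1 : G.Adj u t := hu t (Finset.mem_insert_self _ _)
    have h2 : G.Adj u s := hu s (Finset.mem_insert_of_mem hs)
    refine ⟨fun h => ⟨h, fun h3 => ?_⟩, fun h => h.1⟩
    rw [Sym2.eq_iff] at h3
    rcases h3 with ⟨h3, -⟩ | ⟨h3, -⟩
    · exact h2.ne h3
    · exact h1.ne h3


include hS in
theorem eqB2 (hz : Fin.last n ∉ S) (hM : ¬ ∀ u ∈ pre S, Mid G s t u) (i : ℕ) :
    bb (sd G s t) (lk (sd G s t) S) i = bb G (lk G (pre S)) i := by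
  classical
  have hc := pre_clique hS
  have hlk : lk (sd G s t) S = Fin.castSucc '' lk G (pre S) := by
    ext v
    induction v using Fin.lastCases with
    | last =>
      rw [lk_l]
      exact ⟨fun h => absurd h.2 hM, fun h => absurd h (last_img _)⟩
    | cast a =>
      rw [lk_c, mem_img]
      constructor
      · rintro ⟨h1, -⟩ u hu
        exact (h1 u hu).1
      · intro h
        refine ⟨fun u hu => ⟨h u hu, fun h3 => ?_⟩, fun h => absurd h hz⟩
        rw [Sym2.eq_iff] at h3
        apply hM
        rcases h3 with ⟨h3, h4⟩ | ⟨h3, h4⟩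
        · intro u' hu'
          by_cases h5 : u' = t
          · exact Or.inr (Or.inl h5)
          · refine Or.inr (Or.inr ⟨?_, ?_⟩)
            · rw [← h3]
              exact h u' hu'
            · rw [← h4]
              exact hc hu hu' (by rw [h4]; exact fun e => h5 e.symm)
        · intro u' hu'
          by_cases h5 : u' = s
          · exact Or.inl h5
          · refine Or.inr (Or.inr ⟨?_, ?_⟩)
            · rw [← h4]
              exact hc hu hu' (by rw [h4]; exact fun e => h5 e.symm)
            · rw [← h3]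
              exact h u' hu'
  rw [hlk, bb_tr (H := G) Fin.castSucc mono_cs]
  · intro u hu u' hu'
    rw [sd_cc]
    refine ⟨fun h => ⟨h, fun h3 => ?_⟩, fun h => h.1⟩
    rw [Sym2.eq_iff] at h3
    apply hM
    intro v hv
    refine Or.inr (Or.inr ?_)
    rcases h3 with ⟨h3, h4⟩ | ⟨h3, h4⟩
    · rw [← h3, ← h4]
      exact ⟨hu v hv, hu' v hv⟩
    · rw [← h3, ← h4]
      exact ⟨hu' v hv, hu v hv⟩


include hst hS in
theorem eqB1a (hz : Fin.last n ∉ S) (hM : ∀ u ∈ pre S, Mid G s t u) (hs : s ∈ pre S) (i : ℕ) :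
    bb (sd G s t) (lk (sd G s t) S) i = bb G (lk G (pre S)) i := by
  classical
  have hc := pre_clique hS
  have hnb := not_both hst hS
  have ht : t ∉ pre S := fun h => hnb ⟨hs, h⟩
  have htl : t ∈ lk G (pre S) := by
    intro u hu
    rcases hM u hu with h | h | h
    · rw [h]
      exact hst.symm
    · exact absurd (h ▸ hu) ht
    · exact h.2
  have hlk : lk (sd G s t) S = insert (Fin.last n) (Fin.castSucc '' (lk G (pre S) \ {t})) := by
    ext v
    induction v using Fin.lastCases with
    | last =>
      rw [lk_l]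
      exact ⟨fun _ => Or.inl rfl, fun _ => ⟨hz, hM⟩⟩
    | cast a =>
      rw [lk_c]
      constructor
      · rintro ⟨h1, -⟩
        right
        rw [mem_img]
        refine ⟨fun u hu => (h1 u hu).1, fun h => ?_⟩
        have h' : a = t := h
        exact (h1 s hs).2 (by rw [h', Sym2.eq_swap])
      · rintro (h | h)
        · exact absurd h (Fin.castSucc_lt_last a).ne
        · rw [mem_img] at h
          obtain ⟨h1, h2⟩ := h
          refine ⟨fun u hu => ⟨h1 u hu, fun h3 => ?_⟩, fun h => absurd h hz⟩
          rw [Sym2.eq_iff] at h3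
          rcases h3 with ⟨h3, -⟩ | ⟨h3, -⟩
          · exact (h1 s hs).ne h3
          · exact h2 h3
  have hsl : s ∉ lk G (pre S) := fun h => G.loopless.irrefl _ (h s hs)
  have e1 : bb (sd G s t) (insert (Fin.last n) (Fin.castSucc '' (lk G (pre S) \ {t}))) i =
      bb (g2 G s t) (insert (Fin.last n) (Fin.castSucc '' (lk G (pre S) \ {t}))) i := by
    refine bb_congr (fun u hu v hv => ?_) i
    rw [← g2_del, SimpleGraph.deleteEdges_adj, Set.mem_singleton_iff]
    refine ⟨fun h => h.1, fun h => ⟨h, fun h3 => ?_⟩⟩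
    have key : t.castSucc ∉ insert (Fin.last n) (Fin.castSucc '' (lk G (pre S) \ {t})) := by
      rintro (h | h)
      · exact (Fin.castSucc_lt_last t).ne h
      · rw [mem_img] at h
        exact h.2 rfl
    rw [Sym2.eq_iff] at h3
    rcases h3 with ⟨-, h3⟩ | ⟨h3, -⟩
    · exact key (h3 ▸ hv)
    · exact key (h3 ▸ hu)
  have e2 : bb (g2 G s t) (insert t.castSucc
      (insert (Fin.last n) (Fin.castSucc '' (lk G (pre S) \ {t})))) i =
      bb (g2 G s t) (insert (Fin.last n) (Fin.castSucc '' (lk G (pre S) \ {t}))) i := by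
    refine bb_dom (u := Fin.last n) ?_ (Or.inl rfl) ((g2_cl t).2 (Or.inr (Or.inl rfl))) ?_ i
    · rintro (h | h)
      · exact (Fin.castSucc_lt_last t).ne h
      · rw [mem_img] at h
        exact h.2 rfl
    · rintro w (hw | ⟨a, ha, rfl⟩) h1 h2
      · exact absurd hw h2
      · rw [g2_cc hst] at h1
        rw [g2_lc]
        exact Or.inr (Or.inr ⟨(ha.1 s hs).symm, h1⟩)
  have e3 : insert t.castSucc (insert (Fin.last n) (Fin.castSucc '' (lk G (pre S) \ {t}))) =
      insert (Fin.last n) (Fin.castSucc '' lk G (pre S)) := by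
    rw [Set.insert_comm, ← Set.image_insert_eq, Set.insert_sdiff_singleton,
      Set.insert_eq_of_mem htl]
  have e4 : bb (g2 G s t) (insert (Fin.last n) (Fin.castSucc '' lk G (pre S))) i =
      bb (g2 G s t) (Fin.castSucc '' lk G (pre S)) i := by
    refine bb_dom (u := t.castSucc) (last_img _) (mem_img.2 htl)
      ((g2_lc t).2 (Or.inr (Or.inl rfl))) ?_ i
    rintro w ⟨a, ha, rfl⟩ h1 h2
    rw [g2_lc] at h1
    rw [g2_cc hst]
    rcases h1 with h | h | h
    · exact absurd (h ▸ ha) hsl
    · exact absurd (by rw [h]) h2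
    · exact h.2
  rw [hlk, e1, ← e2, e3, e4, bb_tr (H := G) Fin.castSucc mono_cs]
  · intro u _ u' _
    exact (g2_cc hst u u').symm


include hst hS in
theorem eqB1c (hz : Fin.last n ∉ S) (hM : ∀ u ∈ pre S, Mid G s t u) (hs : s ∉ pre S)
    (ht : t ∉ pre S) (i : ℕ) :
    bb (sd G s t) (lk (sd G s t) S) i = bb G (lk G (pre S)) i := by
  classical
  have hc := pre_clique hS
  have hM' : ∀ u ∈ pre S, G.Adj s u ∧ G.Adj t u := by
    intro u hu
    rcases hM u hu with h | h | h
    · exact absurd (h ▸ hu) hs
    · exact absurd (h ▸ hu) ht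
    · exact h
  have hsl : s ∈ lk G (pre S) := fun u hu => (hM' u hu).1
  have htl : t ∈ lk G (pre S) := fun u hu => (hM' u hu).2
  have hlk : lk (sd G s t) S = insert (Fin.last n) (Fin.castSucc '' lk G (pre S)) := by
    ext v
    induction v using Fin.lastCases with
    | last =>
      rw [lk_l]
      exact ⟨fun _ => Or.inl rfl, fun _ => ⟨hz, hM⟩⟩
    | cast a =>
      rw [lk_c]
      constructor
      · rintro ⟨h1, -⟩
        right
        rw [mem_img]
        exact fun u hu => (h1 u hu).1
      · rintro (h | h)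
        · exact absurd h (Fin.castSucc_lt_last a).ne
        · rw [mem_img] at h
          refine ⟨fun u hu => ⟨h u hu, fun h3 => ?_⟩, fun h => absurd h hz⟩
          rw [Sym2.eq_iff] at h3
          rcases h3 with ⟨-, h3⟩ | ⟨-, h3⟩
          · exact ht (h3 ▸ hu)
          · exact hs (h3 ▸ hu)
  have e1 : bb (sd G s t) (insert (Fin.last n) (Fin.castSucc '' lk G (pre S))) i =
      bb (g2 G s t) (insert (Fin.last n) (Fin.castSucc '' lk G (pre S))) i := by
    rw [← g2_del]
    refine bb_del (G := g2 G s t) (A := insert (Fin.last n) (Fin.castSucc '' lk G (pre S)))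
      (s := s.castSucc) (t := t.castSucc) (Or.inr (mem_img.2 hsl)) (Or.inr (mem_img.2 htl))
      ((g2_cc hst s t).2 hst) (bb_cone (u := Fin.last n) ⟨Or.inl rfl, (g2_cl s).2 (Or.inl rfl),
        (g2_cl t).2 (Or.inr (Or.inl rfl))⟩ ?_) i
    rintro w ⟨hw | ⟨a, ha, rfl⟩, h1, h2⟩ h3
    · exact absurd hw h3
    · have h1' : (g2 G s t).Adj s.castSucc a.castSucc := h1
      have h2' : (g2 G s t).Adj t.castSucc a.castSucc := h2
      rw [g2_cc hst] at h1' h2'
      rw [g2_lc]
      exact Or.inr (Or.inr ⟨h1', h2'⟩)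
  have e2 : bb (g2 G s t) (insert (Fin.last n) (Fin.castSucc '' lk G (pre S))) i =
      bb (g2 G s t) (Fin.castSucc '' lk G (pre S)) i := by
    refine bb_dom (u := s.castSucc) (last_img _) (mem_img.2 hsl)
      ((g2_lc s).2 (Or.inl rfl)) ?_ i
    rintro w ⟨a, ha, rfl⟩ h1 h2
    rw [g2_lc] at h1
    rw [g2_cc hst]
    rcases h1 with h | h | h
    · exact absurd (by rw [h]) h2
    · rw [h]
      exact hst
    · exact h.1
  rw [hlk, e1, e2, bb_tr (H := G) Fin.castSucc mono_cs]
  · intro u _ u' _
    exact (g2_cc hst u u').symm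


end cases

/-- the inverse of an edge subdivision -/
theorem HSph_weld {n k : ℕ} {G : SimpleGraph (Fin n)} {s t : Fin n} (hst : G.Adj s t) (hG : HSph k (sd G s t)) :
    HSph k G := by
  classical
  intro T hT i
  show bb G (lk G T) i = _
  by_cases hb : s ∈ T ∧ t ∈ T
  · obtain ⟨hs, ht⟩ := hb
    set S : Finset (Fin (n + 1)) := insert (Fin.last n) ((T.erase t).map Fin.castSuccEmb) with hSd
    have hl : Fin.last n ∈ S := Finset.mem_insert_self _ _
    have hpre : pre S = T.erase t := by
      ext a
      rw [mem_pre, hSd, Finset.mem_insert, Finset.mem_map]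
      constructor
      · rintro (h | ⟨b, hb, h⟩)
        · exact absurd h (Fin.castSucc_lt_last a).ne
        · have : b = a := Fin.castSucc_injective _ h
          exact this ▸ hb
      · intro h
        exact Or.inr ⟨a, h, rfl⟩
    have hcl : (sd G s t).IsClique (S : Set (Fin (n + 1))) := by
      rw [hSd, Finset.coe_insert, SimpleGraph.isClique_insert]
      constructor
      · intro x hx y hy hxy
        rw [Finset.mem_coe, Finset.mem_map] at hx hy
        obtain ⟨a, ha, rfl⟩ := hx
        obtain ⟨b, hb, rfl⟩ := hy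
        rw [Finset.mem_erase] at ha hb
        refine (sd_cc a b).2 ⟨hT ha.2 hb.2 (fun h => hxy (by rw [h])), fun h => ?_⟩
        rw [Sym2.eq_iff] at h
        rcases h with ⟨-, h⟩ | ⟨h, -⟩
        · exact hb.1 h
        · exact ha.1 h
      · intro y hy _
        rw [Finset.mem_coe, Finset.mem_map] at hy
        obtain ⟨b, hb, rfl⟩ := hy
        rw [Finset.mem_erase] at hb
        refine (sd_lc b).2 ?_
        by_cases h : b = s
        · exact Or.inl h
        · exact Or.inr (Or.inr ⟨hT hs hb.2 (fun e => h e.symm), hT ht hb.2 (fun e => hb.1 e.symm)⟩)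
    have hs' : s ∈ pre S := by
      rw [hpre]
      exact Finset.mem_erase.2 ⟨hst.ne, hs⟩
    have h1 := eqA1 hst hcl hl hs' i
    rw [hpre, Finset.insert_erase ht] at h1
    rw [← h1]
    have h2 := hG S hcl i
    have h3 : S.card = T.card := by
      rw [card_in hl, hpre, Finset.card_erase_add_one ht]
    rw [h3] at h2
    exact h2
  · set S : Finset (Fin (n + 1)) := T.map Fin.castSuccEmb with hSd
    have hl : Fin.last n ∉ S := by
      rw [hSd, Finset.mem_map]
      rintro ⟨a, -, h⟩
      exact (Fin.castSucc_lt_last a).ne h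
    have hpre : pre S = T := by
      ext a
      rw [mem_pre, hSd, Finset.mem_map]
      constructor
      · rintro ⟨b, hb, h⟩
        have : b = a := Fin.castSucc_injective _ h
        exact this ▸ hb
      · intro h
        exact ⟨a, h, rfl⟩
    have hcl : (sd G s t).IsClique (S : Set (Fin (n + 1))) := by
      intro x hx y hy hxy
      rw [hSd, Finset.mem_coe, Finset.mem_map] at hx hy
      obtain ⟨a, ha, rfl⟩ := hx
      obtain ⟨b, hb', rfl⟩ := hy
      refine (sd_cc a b).2 ⟨hT ha hb' (fun h => hxy (by rw [h])), fun h => ?_⟩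
      rw [Sym2.eq_iff] at h
      rcases h with ⟨h, h'⟩ | ⟨h, h'⟩
      · exact hb ⟨h ▸ ha, h' ▸ hb'⟩
      · exact hb ⟨h' ▸ hb', h ▸ ha⟩
    have h2 := hG S hcl i
    have h3 : S.card = T.card := by rw [card_out hl, hpre]
    rw [h3] at h2
    have h4 : bb (sd G s t) (lk (sd G s t) S) i = bb G (lk G T) i := by
      by_cases hM : ∀ u ∈ pre S, Mid G s t u
      · by_cases hs : s ∈ pre S
        · have := eqB1a hst hcl hl hM hs i
          rwa [hpre] at this
        · by_cases ht : t ∈ pre S
          · have hcl' : (sd G t s).IsClique (S : Set (Fin (n + 1))) := by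
              rw [sd_comm]
              exact hcl
            have := eqB1a hst.symm hcl' hl (fun u hu => (mid_comm u).1 (hM u hu)) ht i
            rw [hpre, sd_comm] at this
            exact this
          · have := eqB1c hst hcl hl hM hs ht i
            rwa [hpre] at this
      · have := eqB2 hcl hl hM i
        rwa [hpre] at this
    rw [← h4]
    exact h2

/-- the inverse of `phi` -/
def psi {n : ℕ} (s t : Fin n) (x : Fin n → ℝ) : Fin (n + 1) → ℝ :=
  Fin.snoc (α := fun _ => ℝ) (fun v => x v - if v = s ∨ v = t then min (x s) (x t) else 0) (2 * min (x s) (x t))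

theorem psi_last {n : ℕ} (s t : Fin n) (x : Fin n → ℝ) : psi s t x (Fin.last n) = 2 * min (x s) (x t) := by
  unfold psi
  rw [Fin.snoc_last]

theorem psi_cast {n : ℕ} (s t : Fin n) (x : Fin n → ℝ) (v : Fin n) :
    psi s t x v.castSucc = x v - if v = s ∨ v = t then min (x s) (x t) else 0 := by
  unfold psi
  rw [Fin.snoc_castSucc]

theorem psi_cont {n : ℕ} (s t : Fin n) : Continuous (psi s t) := by
  refine continuous_pi fun v => ?_
  induction v using Fin.lastCases with
  | last =>
    simp only [psi_last]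
    fun_prop
  | cast v =>
    simp only [psi_cast]
    by_cases h : v = s ∨ v = t
    · simp only [if_pos h]
      fun_prop
    · simp only [if_neg h]
      fun_prop

theorem phi_psi {n : ℕ} (s t : Fin n) (x : Fin n → ℝ) : E2p.phi s t (psi s t x) = x := by
  funext v
  unfold E2p.phi
  rw [psi_last, psi_cast]
  by_cases h : v = s ∨ v = t
  · rw [if_pos h, if_pos h]
    ring
  · rw [if_neg h, if_neg h]
    ring

open Pool.Agent.R782.Bal in
theorem psi_mem {n : ℕ} {G : SimpleGraph (Fin n)} {s t : Fin n} (hst : G.Adj s t) {x : Fin n → ℝ}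
    (hx : x ∈ Rea G) : psi s t x ∈ Rea (sd G s t) := by
  obtain ⟨h0, h1, h2⟩ := hx
  have hm0 : 0 ≤ min (x s) (x t) := le_min (h0 s) (h0 t)
  refine ⟨fun v => ?_, ?_, ?_⟩
  · induction v using Fin.lastCases with
    | last =>
      rw [psi_last]
      linarith
    | cast v =>
      rw [psi_cast]
      split_ifs with h
      · rcases h with h | h
        · rw [h]
          linarith [min_le_left (x s) (x t)]
        · rw [h]
          linarith [min_le_right (x s) (x t)]
      · linarith [h0 v]
  · rw [finsum_eq_sum_of_fintype] at h1 ⊢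
    rw [← E2p.phi_sum hst.ne, phi_psi, h1]
  · -- nonzero entries
    have hc : ∀ v : Fin n, psi s t x v.castSucc ≠ 0 → x v ≠ 0 := by
      intro v hv h3
      rw [psi_cast, h3] at hv
      split_ifs at hv with h
      · apply hv
        have : min (x s) (x t) = 0 := by
          refine le_antisymm ?_ hm0
          rcases h with h | h
          · rw [← h3, h]
            exact min_le_left _ _
          · rw [← h3, h]
            exact min_le_right _ _
        rw [this]
        norm_num
      · exact hv (by norm_num)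
    have hl : psi s t x (Fin.last n) ≠ 0 → x s ≠ 0 ∧ x t ≠ 0 := by
      intro h
      rw [psi_last] at h
      have hpos : 0 < min (x s) (x t) := lt_of_le_of_ne hm0 fun e => h (by rw [← e]; ring)
      exact ⟨(lt_of_lt_of_le hpos (min_le_left _ _)).ne', (lt_of_lt_of_le hpos (min_le_right _ _)).ne'⟩
    have hnb : ¬ (psi s t x s.castSucc ≠ 0 ∧ psi s t x t.castSucc ≠ 0) := by
      rintro ⟨h3, h4⟩
      rw [psi_cast, if_pos (Or.inl rfl)] at h3
      rw [psi_cast, if_pos (Or.inr rfl)] at h4
      rcases le_total (x s) (x t) with h | h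
      · rw [min_eq_left h] at h3
        exact h3 (sub_self _)
      · rw [min_eq_right h] at h4
        exact h4 (sub_self _)
    have hlc : ∀ v : Fin n, psi s t x (Fin.last n) ≠ 0 → psi s t x v.castSucc ≠ 0 → Mid G s t v := by
      intro v h3 h4
      by_cases e1 : v = s
      · exact Or.inl e1
      · by_cases e2 : v = t
        · exact Or.inr (Or.inl e2)
        · exact Or.inr (Or.inr ⟨h2 (hl h3).1 (hc v h4) (fun e => e1 e.symm),
            h2 (hl h3).2 (hc v h4) (fun e => e2 e.symm)⟩)
    intro u hu v hv huv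
    induction u using Fin.lastCases with
    | last =>
      induction v using Fin.lastCases with
      | last => exact absurd rfl huv
      | cast v => exact (sd_lc v).2 (hlc v hu hv)
    | cast u =>
      induction v using Fin.lastCases with
      | last => exact (sd_cl u).2 (hlc u hv hu)
      | cast v =>
        refine (sd_cc u v).2 ⟨h2 (hc u hu) (hc v hv) (fun e => huv (by rw [e])), fun h => ?_⟩
        rw [Sym2.eq_iff] at h
        rcases h with ⟨e1, e2⟩ | ⟨e1, e2⟩
        · have hu' : psi s t x u.castSucc ≠ 0 := hu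
          have hv' : psi s t x v.castSucc ≠ 0 := hv
          rw [e1] at hu'
          rw [e2] at hv'
          exact hnb ⟨hu', hv'⟩
        · have hu' : psi s t x u.castSucc ≠ 0 := hu
          have hv' : psi s t x v.castSucc ≠ 0 := hv
          rw [e1] at hu'
          rw [e2] at hv'
          exact hnb ⟨hv', hu'⟩

open Pool.Agent.N496.LT.Lt (Sph)

theorem Sph_weld {d n : ℕ} {G : SimpleGraph (Fin n)} {s t : Fin n} (hst : G.Adj s t)
    (h : Sph d (Lt.sd G s t)) : Sph d G := by
  have e : Lt.sd G s t = sd G s t := rfl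
  rw [e] at h
  refine ⟨HSph_weld hst h.hom, ?_⟩
  obtain ⟨f, h1, h2, h3⟩ := h.emb
  refine ⟨fun x => f (psi s t x), h1.comp (psi_cont s t).continuousOn fun x hx => psi_mem hst hx,
    fun x hx => h2 _ (psi_mem hst hx), fun x hx y hy hxy => ?_⟩
  have := h3 (psi_mem hst hx) (psi_mem hst hy) hxy
  rw [← phi_psi s t x, ← phi_psi s t y, this]

theorem Sph_sub {d n : ℕ} {G : SimpleGraph (Fin n)} {s t : Fin n} (hst : G.Adj s t)
    (h : Sph d G) : Sph d (Lt.sd G s t) := by
  have e : Lt.sd G s t = sd G s t := rfl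
  rw [e]
  refine ⟨e1 _ _ _ _ _ hst h.hom, ?_⟩
  obtain ⟨f, h1, h2, h3⟩ := h.emb
  obtain ⟨g, k1, k2, k3⟩ := e2 _ G s t _ f hst h1 h3
  refine ⟨g, k1, fun x hx => ?_, k2⟩
  obtain ⟨y, hy, e⟩ := k3 x hx
  rw [e]
  exact h2 y hy

end Pool.Agent.H77.SP
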