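import Pool.Agent.H77.SP.Fast

/-!
# Changing the width of the matrix
-/

set_option autoImplicit false

namespace Pool.Agent.H77.SP

theorem cvR_testBit {W W' M : ℕ} (hW : W ≤ W') (n a b : ℕ) (hb : b < W') :
    (cvR W (2 ^ W - 1) W' M n).testBit (a * W' + b) = (decide (a < n) && (row W M a).testBit b) := by
  induction n with
  | zero =>
    show (0 : ℕ).testBit _ = _
    rw [Nat.zero_testBit, decide_eq_false (by omega), Bool.false_and]
  | succ n ih =>
    show (((row W M n) <<< (n * W')) ||| cvR W (2 ^ W - 1) W' M n).testBit (a * W' + b) = _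
    rw [Nat.testBit_lor, ih, Nat.testBit_shiftLeft]
    have hrow : ∀ x, W ≤ x → (row W M n).testBit x = false := by
      intro x hx
      rw [testBit_row, decide_eq_false (by omega), Bool.false_and]
    by_cases h : a = n
    · subst h
      have h1 : a * W' + b - a * W' = b := by omega
      rw [h1, decide_eq_true (by omega), decide_eq_false (by omega), decide_eq_true (by omega), Bool.true_and,
        Bool.false_and, Bool.or_false]
    · have h2 : (decide (n * W' ≤ a * W' + b) && (row W M n).testBit (a * W' + b - n * W')) = false := by
        by_cases h3 : n * W' ≤ a * W' + b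
        · have h4 : n < a := by
            by_contra h5
            have h6 : a + 1 ≤ n := by omega
            have h7 : (a + 1) * W' ≤ n * W' := Nat.mul_le_mul_right _ h6
            have h8 : (a + 1) * W' = a * W' + W' := by ring
            omega
          have h9 : (n + 1) * W' ≤ a * W' := Nat.mul_le_mul_right _ h4
          have h10 : (n + 1) * W' = n * W' + W' := by ring
          rw [hrow _ (by omega), Bool.and_false]
        · rw [decide_eq_false h3, Bool.false_and]
      rw [h2, Bool.false_or]
      have h5 : decide (a < n) = decide (a < n + 1) := by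
        congr 1
        apply propext
        omega
      rw [h5]

theorem wid_inv {d W Wm W' A M M' : ℕ} (hI : Inv d W A M) (hW : W ≤ W') (hm : Wm = 2 ^ W - 1)
    (hb : Nat.beq (cvR W Wm W' M W) M' = true) : Inv d W' A M' := by
  subst hm
  obtain ⟨G, g1, g2, g3, g4⟩ := hI
  have e := Nat.eq_of_beq_eq_true hb
  subst e
  have g3' : ∀ a, A.testBit a = true → a < W - 1 := g3
  refine ⟨G, ?_, g2, fun a ha => lt_of_lt_of_le (g3 a ha) (by omega), g4⟩
  intro a ha b hb
  rw [cvR_testBit hW W a b hb, testBit_row, Bool.and_eq_true, Bool.and_eq_true, decide_eq_true_eq, decide_eq_true_eq]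
  constructor
  · rintro ⟨h1, h2, h3⟩
    exact (g1 a h1 b h2).1 h3
  · intro h
    have h1 := g3 a (g2 a b h)
    have h2 := g3 b (g2 b a h.symm)
    exact ⟨by omega, by omega, (g1 a (by omega) b (by omega)).2 h⟩

end Pool.Agent.H77.SP
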